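import Pool.Agent.Helper20.FK.Hom
import Pool.Agent.Helper20.FG.Final

/-!
# Averaging over signs, and an estimate
-/

open Topology Filter

namespace Pool.Agent.Helper20.FA

universe u v

attribute [local instance] IsFrechet.tag IsFrechet.csm IsFrechet.lcs

/-- Sequences of signs. -/
def IsSign (ε : ℕ → ℂ) : Prop := ∀ k, ε k = 1 ∨ ε k = -1

theorem sum_update {V : Type v} [AddCommGroup V] [Module ℂ V] (v : ℕ → V) {F : Finset ℕ}
    {j : ℕ} (hj : j ∉ F) (ε : ℕ → ℂ) (c : ℂ) :
    ∑ k ∈ insert j F, Function.update ε j c k • v k = c • v j + ∑ k ∈ F, ε k • v k := by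
  rw [Finset.sum_insert hj, Function.update_self]
  congr 1
  refine Finset.sum_congr rfl fun k hk => ?_
  have hkj : k ≠ j := by
    rintro rfl
    exact hj hk
  rw [Function.update_of_ne hkj]

theorem IsSign.update {ε : ℕ → ℂ} (hε : IsSign ε) (j : ℕ) {c : ℂ} (hc : c = 1 ∨ c = -1) :
    IsSign (Function.update ε j c) := by
  intro k
  by_cases hk : k = j
  · subst hk
    rw [Function.update_self]
    exact hc
  · rw [Function.update_of_ne hk]
    exact hε k

theorem sign_bound {V W E : Type v} [AddCommGroup V] [Module ℂ V] [AddCommGroup W] [Module ℂ W]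
    [AddCommGroup E] [Module ℂ E] (B : V →ₗ[ℂ] W →ₗ[ℂ] E) (r : Seminorm ℂ E) (v : ℕ → V)
    (w : ℕ → W) (F : Finset ℕ) (C : ℝ) (x : V) (y : W)
    (h : ∀ ε : ℕ → ℂ, IsSign ε →
      r (B (x + ∑ k ∈ F, ε k • v k) (y + ∑ k ∈ F, ε k • w k)) ≤ C) :
    r (B x y + ∑ k ∈ F, B (v k) (w k)) ≤ C := by
  induction F using Finset.induction_on generalizing x y with
  | empty =>
    have h1 := h 1 fun _ => Or.inl rfl
    simpa using h1
  | insert j F hj ih =>
    have h1 := ih (x + v j) (y + w j) fun ε hε => by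
      have h2 := h (Function.update ε j 1) (hε.update j (Or.inl rfl))
      rw [sum_update v hj, sum_update w hj, one_smul, one_smul, ← add_assoc, ← add_assoc] at h2
      exact h2
    have h3 := ih (x - v j) (y - w j) fun ε hε => by
      have h2 := h (Function.update ε j (-1)) (hε.update j (Or.inr rfl))
      rw [sum_update v hj, sum_update w hj, neg_one_smul, neg_one_smul, ← add_assoc,
        ← add_assoc, ← sub_eq_add_neg, ← sub_eq_add_neg] at h2
      exact h2
    rw [Finset.sum_insert hj]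
    have h4 : B x y + (B (v j) (w j) + ∑ k ∈ F, B (v k) (w k)) =
        (2⁻¹ : ℂ) • (B (x + v j) (y + w j) + ∑ k ∈ F, B (v k) (w k)) +
        (2⁻¹ : ℂ) • (B (x - v j) (y - w j) + ∑ k ∈ F, B (v k) (w k)) := by
      have h5 : B (x + v j) (y + w j) + B (x - v j) (y - w j) =
          (2 : ℂ) • (B x y + B (v j) (w j)) := by
        simp only [map_add, map_sub, LinearMap.add_apply, LinearMap.sub_apply, two_smul]
        abel
      rw [← smul_add, add_add_add_comm, h5, ← two_smul ℂ (∑ k ∈ F, B (v k) (w k)), ← smul_add,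
        smul_smul]
      norm_num
      abel
    rw [h4]
    refine (map_add_le_add r _ _).trans ?_
    rw [map_smul_eq_mul, map_smul_eq_mul]
    have h6 : ‖(2⁻¹ : ℂ)‖ = 2⁻¹ := by simp
    rw [h6]
    linarith

theorem sign_bound' {V W E : Type v} [AddCommGroup V] [Module ℂ V] [AddCommGroup W]
    [Module ℂ W] [AddCommGroup E] [Module ℂ E] (B : V →ₗ[ℂ] W →ₗ[ℂ] E) (r : Seminorm ℂ E)
    (v : ℕ → V) (w : ℕ → W) (F : Finset ℕ) (C : ℝ)
    (h : ∀ ε : ℕ → ℂ, IsSign ε → r (B (∑ k ∈ F, ε k • v k) (∑ k ∈ F, ε k • w k)) ≤ C) :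
    r (∑ k ∈ F, B (v k) (w k)) ≤ C := by
  have h1 := sign_bound B r v w F C 0 0 fun ε hε => by
    rw [zero_add, zero_add]
    exact h ε hε
  rwa [map_zero, zero_add] at h1

/-- Scaling. -/
theorem le_mul_of_lt {E V W Y : Type v} [AddCommGroup V] [Module ℂ V] [AddCommGroup W]
    [Module ℂ W] [AddCommGroup Y] [Module ℂ Y]
    {P : Seminorm ℂ V} {α : Seminorm ℂ W} {Q : Seminorm ℂ Y} {T : Y → V → W → ℝ}
    (hT1 : ∀ (c : ℝ), 0 < c → ∀ y v w, T ((c : ℂ) • y) v w = c * T y v w)
    (hT2 : ∀ (c : ℝ), 0 < c → ∀ y v w, T y ((c : ℂ) • v) w = c * T y v w)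
    (hT3 : ∀ (c : ℝ), 0 < c → ∀ y v w, T y v ((c : ℂ) • w) = c * T y v w)
    (h : ∀ y v w, Q y < 1 → P v < 1 → α w < 1 → T y v w ≤ 1) (y : Y) (v : V) (w : W) :
    T y v w ≤ Q y * P v * α w := by
  have h3 : ∀ ε : ℝ, 0 < ε → T y v w ≤ (Q y + ε) * (P v + ε) * (α w + ε) := by
    intro ε hε
    have hQ := apply_nonneg Q y
    have hP := apply_nonneg P v
    have hα := apply_nonneg α w
    have h1 : 0 < Q y + ε := by linarith
    have h2 : 0 < P v + ε := by linarith
    have h4 : 0 < α w + ε := by linarith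
    have h5 := h ((((Q y + ε)⁻¹ : ℝ) : ℂ) • y) ((((P v + ε)⁻¹ : ℝ) : ℂ) • v)
      ((((α w + ε)⁻¹ : ℝ) : ℂ) • w) (by
        rw [map_smul_eq_mul, Complex.norm_real, Real.norm_of_nonneg (by positivity),
          inv_mul_lt_iff₀ h1]
        linarith) (by
        rw [map_smul_eq_mul, Complex.norm_real, Real.norm_of_nonneg (by positivity),
          inv_mul_lt_iff₀ h2]
        linarith) (by
        rw [map_smul_eq_mul, Complex.norm_real, Real.norm_of_nonneg (by positivity),
          inv_mul_lt_iff₀ h4]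
        linarith)
    rw [hT1 _ (by positivity), hT2 _ (by positivity), hT3 _ (by positivity),
      inv_mul_le_iff₀ h1, inv_mul_le_iff₀ h2, inv_mul_le_iff₀ h4] at h5
    linarith
  have h7 : Tendsto (fun ε : ℝ => (Q y + ε) * (P v + ε) * (α w + ε)) (𝓝[>] 0)
      (𝓝 (Q y * P v * α w)) := by
    have h8 : Continuous fun ε : ℝ => (Q y + ε) * (P v + ε) * (α w + ε) := by fun_prop
    have h9 := h8.continuousAt (x := (0 : ℝ))
    rw [ContinuousAt, add_zero, add_zero, add_zero] at h9
    exact h9.mono_left nhdsWithin_le_nhds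
  refine ge_of_tendsto h7 ?_
  filter_upwards [self_mem_nhdsWithin] with ε hε
  exact h3 ε hε

end Pool.Agent.Helper20.FA
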