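import Pool.Agent.Helper20.FC.E1

/-!
# Normable right ideals with an approximate diagonal
-/

open Topology Filter

namespace Pool.Agent.Helper20.FA

universe u v

attribute [local instance] IsFrechet.tag IsFrechet.csm IsFrechet.lcs

/-- A continuous bilinear map is bounded by a product of seminorms. -/
theorem bil_bound {E F K : Type v} [AddCommGroup E] [Module ℂ E] [TopologicalSpace E]
    [IsFrechet E] [AddCommGroup F] [Module ℂ F] [TopologicalSpace F] [IsFrechet F]
    [AddCommGroup K] [Module ℂ K] (G : E →ₗ[ℂ] F →ₗ[ℂ] K) (r : Seminorm ℂ K)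
    (hG : Continuous fun p : E × F => r (G p.1 p.2)) :
    ∃ (p : Seminorm ℂ E) (q : Seminorm ℂ F), Continuous p ∧ Continuous q ∧
      ∀ x y, r (G x y) ≤ p x * q y := by
  have h2 : {z : E × F | r (G z.1 z.2) < 1} ∈ 𝓝 ((0 : E), (0 : F)) := by
    refine (isOpen_lt hG continuous_const).mem_nhds ?_
    simp
  rw [nhds_prod_eq, Filter.mem_prod_iff] at h2
  obtain ⟨U, hU, V, hV, hUV⟩ := h2
  obtain ⟨p, hp, hpU⟩ := exists_seminorm hU
  obtain ⟨q, hq, hqV⟩ := exists_seminorm hV
  refine ⟨p, q, hp, hq, fun x y => ?_⟩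
  have h3 : ∀ ε : ℝ, 0 < ε → r (G x y) ≤ (p x + ε) * (q y + ε) := by
    intro ε hε
    have hpa := apply_nonneg p x
    have hrx := apply_nonneg q y
    have hs : 0 < p x + ε := by linarith
    have ht : 0 < q y + ε := by linarith
    have h4 : (((p x + ε)⁻¹ : ℝ) : ℂ) • x ∈ U := by
      refine hpU _ ?_
      rw [map_smul_eq_mul, Complex.norm_real, Real.norm_of_nonneg (by positivity),
        inv_mul_lt_iff₀ hs]
      linarith
    have h5 : (((q y + ε)⁻¹ : ℝ) : ℂ) • y ∈ V := by
      refine hqV _ ?_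
      rw [map_smul_eq_mul, Complex.norm_real, Real.norm_of_nonneg (by positivity),
        inv_mul_lt_iff₀ ht]
      linarith
    have h6 : r (G ((((p x + ε)⁻¹ : ℝ) : ℂ) • x) ((((q y + ε)⁻¹ : ℝ) : ℂ) • y)) < 1 :=
      hUV (Set.mk_mem_prod h4 h5)
    have h7 : ∀ s t : ℂ, G (s • x) (t • y) = t • s • G x y := by
      intro s t
      rw [map_smul, map_smul, LinearMap.smul_apply]
    rw [h7, map_smul_eq_mul, map_smul_eq_mul, Complex.norm_real, Complex.norm_real,
      Real.norm_of_nonneg (by positivity), Real.norm_of_nonneg (by positivity),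
      inv_mul_lt_iff₀ ht, mul_one, inv_mul_lt_iff₀ hs] at h6
    exact h6.le
  have h7 : Tendsto (fun ε : ℝ => (p x + ε) * (q y + ε)) (𝓝[>] 0) (𝓝 (p x * q y)) := by
    have h8 : Continuous fun ε : ℝ => (p x + ε) * (q y + ε) := by fun_prop
    have h9 := h8.continuousAt (x := (0 : ℝ))
    rw [ContinuousAt, add_zero, add_zero] at h9
    exact h9.mono_left nhdsWithin_le_nhds
  refine ge_of_tendsto h7 ?_
  filter_upwards [self_mem_nhdsWithin] with ε hε
  exact h3 ε hε

variable {A : Type u} [NonUnitalRing A] [Module ℂ A] [IsScalarTower ℂ A A] [SMulCommClass ℂ A A]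
  [TopologicalSpace A] [IsFrechet A] [ContinuousMul A]

/-- A closed normable right ideal of `A_+` with an approximate diagonal. -/
structure Piece (L : Submodule ℂ (ℂ × A)) (P : Seminorm ℂ (ℂ × A)) (u : ℕ → ℂ × A) : Prop where
  closed : IsClosed (L : Set (ℂ × A))
  stab : ∀ z ∈ L, ∀ w, mulP z w ∈ L
  cont : Continuous P
  nrm : ∀ U ∈ 𝓝 (0 : ℂ × A), ∃ r : ℝ, 0 < r ∧ ∀ z ∈ L, P z < r → z ∈ U
  mem : ∀ k, u k ∈ L
  bdd : ∃ C : ℝ, ∀ (F : Finset ℕ) (ε : ℕ → ℂ), IsSign ε → P (∑ k ∈ F, ε k • u k) ≤ C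
  tail : ∀ z ∈ L, ∀ U ∈ 𝓝 (0 : ℂ × A), ∃ N : ℕ, ∀ F : Finset ℕ, Disjoint F (Finset.range N) →
    ∀ ε : ℕ → ℂ, IsSign ε → mulP (∑ k ∈ F, ε k • u k) z ∈ U
  sum : ∀ z ∈ L, HasSum (fun k => mulP (u k) (mulP (u k) z)) z

/-- The right module `L`. -/
noncomputable def subR (L : Submodule ℂ (ℂ × A)) (hc : IsClosed (L : Set (ℂ × A)))
    (hs : ∀ z ∈ L, ∀ w, mulP z w ∈ L) (hn : Normable L) : RMod A where
  V := L
  fre := by
    have : IsFrechet (ℂ × A) := IsFrechet.prod
    exact IsFrechet.sub _ hc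
  r := LinearMap.mk₂ ℂ (fun a z => ⟨mulP z.1 (0, a), hs _ z.2 _⟩)
    (by
      intro a b z
      refine Subtype.ext ?_
      show mulP z.1 (0, a + b) = mulP z.1 (0, a) + mulP z.1 (0, b)
      rw [← mulP_add, Prod.mk_add_mk, add_zero])
    (by
      intro r a z
      refine Subtype.ext ?_
      show mulP z.1 (0, r • a) = r • mulP z.1 (0, a)
      rw [← mulP_smul, Prod.smul_mk, smul_zero])
    (by
      intro a z w
      refine Subtype.ext ?_
      show mulP (z.1 + w.1) (0, a) = mulP z.1 (0, a) + mulP w.1 (0, a)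
      rw [← add_mulP])
    (by
      intro r a z
      refine Subtype.ext ?_
      show mulP (r • z.1) (0, a) = r • mulP z.1 (0, a)
      rw [← smul_mulP])
  r_mul := by
    intro a b z
    refine Subtype.ext ?_
    show mulP z.1 (0, a * b) = mulP (mulP z.1 (0, a)) (0, b)
    rw [mulP_assoc]
    congr 1
    rw [mulP_def]
    simp
  r_cont := by
    refine Continuous.subtype_mk ?_ _
    exact continuous_mulP.comp
      (by fun_prop : Continuous fun p : A × L => (p.2.1, ((0 : ℂ), p.1)))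
  nrm := hn

/-- The pairing. -/
noncomputable def etaS (L : Submodule ℂ (ℂ × A)) (X : FMod A) : X.X →L[ℂ] (L →L[ℂ] X.X) :=
  let B : X.X →ₗ[ℂ] (L →L[ℂ] X.X) :=
    { toFun := fun x =>
        { toFun := fun z => X.actP z.1 x
          map_add' := fun z w => X.add_actP z.1 w.1 x
          map_smul' := fun r z => X.smul_actP r z.1 x
          cont := X.continuous_actP.comp
            (by fun_prop : Continuous fun z : L => (z.1, x)) }
      map_add' := fun x y => ContinuousLinearMap.ext fun z => X.actP_add z.1 x y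
      map_smul' := fun r x => ContinuousLinearMap.ext fun z => X.actP_smul z.1 r x }
  ⟨B, ContinuousLinearMap.continuous_of_continuous_uncurry B
    (X.continuous_actP.comp
      (by fun_prop : Continuous fun p : X.X × L => (p.2.1, p.1)))⟩

variable {L : Submodule ℂ (ℂ × A)} {P : Seminorm ℂ (ℂ × A)} {u : ℕ → ℂ × A}

theorem Piece.normable (h : Piece L P u) : Normable L := by
  refine normable_of_bound (p := P.comp L.subtype) (h.cont.comp continuous_subtype_val)
    fun O hO => ?_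
  rw [nhds_subtype_eq_comap] at hO
  obtain ⟨O', hO', hOO⟩ := hO
  obtain ⟨r, hr, hrU⟩ := h.nrm O' hO'
  exact ⟨r, hr, fun x hx => hOO (hrU x.1 x.2 hx)⟩

/-- The right module of a piece. -/
noncomputable def Piece.R (h : Piece L P u) : RMod A := subR L h.closed h.stab h.normable

/-- Continuous seminorms are bounded by multiples of `P` on `L`. -/
theorem Piece.bound (h : Piece L P u) {q : Seminorm ℂ (ℂ × A)} (hq : Continuous q) :
    ∃ K : ℝ, 0 ≤ K ∧ ∀ z ∈ L, q z ≤ K * P z := by
  have hU : {z : ℂ × A | q z < 1} ∈ 𝓝 (0 : ℂ × A) := by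
    refine (isOpen_lt hq continuous_const).mem_nhds ?_
    show q 0 < 1
    rw [map_zero]
    exact one_pos
  obtain ⟨r, hr, hrU⟩ := h.nrm _ hU
  refine ⟨r⁻¹, by positivity, fun z hz => ?_⟩
  by_contra h1
  push Not at h1
  have hqz : 0 < q z := lt_of_le_of_lt (mul_nonneg (by positivity) (apply_nonneg P z)) h1
  have h2 : P ((((q z)⁻¹ : ℝ) : ℂ) • z) < r := by
    rw [map_smul_eq_mul, Complex.norm_real, Real.norm_of_nonneg (by positivity),
      inv_mul_lt_iff₀ hqz]
    rwa [inv_mul_lt_iff₀ hr, mul_comm] at h1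
  have h3 : q ((((q z)⁻¹ : ℝ) : ℂ) • z) < 1 := hrU _ (L.smul_mem _ hz) h2
  rw [map_smul_eq_mul, Complex.norm_real, Real.norm_of_nonneg (by positivity),
    inv_mul_cancel₀ hqz.ne'] at h3
  exact lt_irrefl _ h3

end Pool.Agent.Helper20.FA
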