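import Pool.Agent.Helper20.FC.E2

/-!
# The averaged map
-/

open Topology Filter

namespace Pool.Agent.Helper20.FA

universe u v

attribute [local instance] IsFrechet.tag IsFrechet.csm IsFrechet.lcs

variable {A : Type u} [NonUnitalRing A] [Module ℂ A] [IsScalarTower ℂ A A] [SMulCommClass ℂ A A]
  [TopologicalSpace A] [IsFrechet A] [ContinuousMul A]
  {L : Submodule ℂ (ℂ × A)} {P : Seminorm ℂ (ℂ × A)} {u : ℕ → ℂ × A}
  {E : Type u} [AddCommGroup E] [Module ℂ E] [TopologicalSpace E] [IsFrechet E] {Y : FMod A}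

/-- The bilinear map for fixed `y`. -/
noncomputable def TB (Ψ : Y.X →L[ℂ] (L →L[ℂ] E)) (y : Y.X) : L →ₗ[ℂ] (ℂ × A) →ₗ[ℂ] E :=
  LinearMap.mk₂ ℂ (fun v w => Ψ (Y.actP w y) v)
    (fun v v' w => map_add _ v v')
    (fun r v w => map_smul _ r v)
    (fun v w w' => by
      rw [Y.add_actP, map_add]
      rfl)
    (fun r v w => by
      rw [Y.smul_actP, map_smul]
      rfl)

theorem TB_apply (Ψ : Y.X →L[ℂ] (L →L[ℂ] E)) (y : Y.X) (v : L) (w : ℂ × A) :
    TB Ψ y v w = Ψ (Y.actP w y) v := rfl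

theorem Piece.est (h : Piece L P u) (Ψ : Y.X →L[ℂ] (L →L[ℂ] E)) {r : Seminorm ℂ E}
    (hr : Continuous r) : ∃ (α : Seminorm ℂ (ℂ × A)) (Q : Seminorm ℂ Y.X), Continuous α ∧
      Continuous Q ∧ ∀ y v w, r (Ψ (Y.actP w y) v) ≤ Q y * P v.1 * α w := by
  obtain ⟨p, hp⟩ := h.normable
  have hpc : Continuous p := hp.continuous_seminorm ()
  have hPb : {v : L | P v.1 < 1} ∈ 𝓝 (0 : L) := by
    have h1 : Continuous fun v : L => P v.1 := h.cont.comp continuous_subtype_val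
    refine (isOpen_lt h1 continuous_const).mem_nhds ?_
    show P 0 < 1
    rw [map_zero]
    exact one_pos
  have hPn : Bornology.IsVonNBounded ℂ {v : L | P v.1 < 1} := by
    refine hp.isVonNBounded_iff_seminorm_bounded.2 fun _ => ?_
    have hU : {v : L | p v < 1} ∈ 𝓝 (0 : L) := by
      refine (isOpen_lt hpc continuous_const).mem_nhds ?_
      show p 0 < 1
      rw [map_zero]
      exact one_pos
    rw [nhds_subtype_eq_comap] at hU
    obtain ⟨O, hO, hOU⟩ := hU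
    obtain ⟨ρ, hρ, hρO⟩ := h.nrm O hO
    refine ⟨2 * ρ⁻¹, by positivity, fun v hv => ?_⟩
    have hv' : P v.1 < 1 := hv
    have h2 : p (((ρ / 2 : ℝ) : ℂ) • v) < 1 := by
      refine hOU (hρO _ (L.smul_mem _ v.2) ?_)
      show P (((ρ / 2 : ℝ) : ℂ) • v.1) < ρ
      rw [map_smul_eq_mul, Complex.norm_real, Real.norm_of_nonneg (by positivity)]
      nlinarith [apply_nonneg P v.1]
    rw [map_smul_eq_mul, Complex.norm_real, Real.norm_of_nonneg (by positivity)] at h2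
    have h3 : p v < (ρ / 2)⁻¹ * 1 := by
      rwa [lt_inv_mul_iff₀ (by positivity)]
    have h4 : (ρ / 2)⁻¹ * 1 = 2 * ρ⁻¹ := by
      field_simp
    rwa [h4] at h3
  have hO : {β : L →L[ℂ] E | ∀ v ∈ {v : L | P v.1 < 1}, β v ∈ {x : E | r x < 1}} ∈
      𝓝 (0 : L →L[ℂ] E) := by
    refine (hasBasis_clm hPb hPn).mem_of_mem (i := {x : E | r x < 1}) ?_
    refine (isOpen_lt hr continuous_const).mem_nhds ?_
    show r 0 < 1
    rw [map_zero]
    exact one_pos
  have h5 : Continuous fun p : (ℂ × A) × Y.X => Ψ (Y.actP p.1 p.2) :=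
    Ψ.continuous.comp Y.continuous_actP
  have h6 := h5.continuousAt (x := ((0 : ℂ × A), (0 : Y.X)))
  have h7 : Ψ (Y.actP 0 0) = 0 := by
    rw [Y.actP_zero, map_zero]
  rw [ContinuousAt] at h6
  have h8 := h6 (by
    show _ ∈ 𝓝 (Ψ (Y.actP 0 0))
    rw [h7]
    exact hO)
  rw [Filter.mem_map, nhds_prod_eq, Filter.mem_prod_iff] at h8
  obtain ⟨U, hU, V, hV, hUV⟩ := h8
  obtain ⟨α, hα, hαU⟩ := exists_seminorm hU
  obtain ⟨Q, hQ, hQV⟩ := exists_seminorm hV
  refine ⟨α, Q, hα, hQ, fun y v w => ?_⟩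
  have hs : ∀ c : ℝ, 0 < c → ∀ x, r ((c : ℂ) • x) = c * r x := by
    intro c hc x
    rw [map_smul_eq_mul, Complex.norm_real, Real.norm_of_nonneg hc.le]
  exact le_mul_of_lt (E := E) (P := P.comp L.subtype) (α := α) (Q := Q)
    (T := fun (y : Y.X) (v : L) (w : ℂ × A) => r (Ψ (Y.actP w y) v))
    (fun c hc y v w => by
      show r (Ψ (Y.actP w ((c : ℂ) • y)) v) = c * r (Ψ (Y.actP w y) v)
      rw [Y.actP_smul, map_smul]
      exact hs c hc _)
    (fun c hc y v w => by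
      show r (Ψ (Y.actP w y) ((c : ℂ) • v)) = c * r (Ψ (Y.actP w y) v)
      rw [map_smul]
      exact hs c hc _)
    (fun c hc y v w => by
      show r (Ψ (Y.actP ((c : ℂ) • w) y) v) = c * r (Ψ (Y.actP w y) v)
      rw [Y.smul_actP, map_smul]
      exact hs c hc _)
    (fun y v w hy hv hw =>
      (hUV (Set.mk_mem_prod (hαU _ hw) (hQV _ hy)) v hv : r (Ψ (Y.actP w y) v) < 1).le) y v w

/-- The finite sums. -/
theorem Piece.fin (h : Piece L P u) (Ψ : Y.X →L[ℂ] (L →L[ℂ] E)) {r : Seminorm ℂ E}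
    (hr : Continuous r) : ∃ (α : Seminorm ℂ (ℂ × A)) (Q : Seminorm ℂ Y.X), Continuous α ∧
      Continuous Q ∧ ∀ y z (F : Finset ℕ) (c : ℝ),
      (∀ ε : ℕ → ℂ, IsSign ε → α (mulP (∑ k ∈ F, ε k • u k) z) ≤ c) →
      r (∑ k ∈ F, Ψ (Y.actP (mulP (u k) z) y) ⟨u k, h.mem k⟩) ≤ Q y * c := by
  obtain ⟨α, Q, hα, hQ, hest⟩ := h.est Ψ hr
  obtain ⟨C, hC⟩ := h.bdd
  have hC0 : 0 ≤ C := (apply_nonneg P _).trans (hC ∅ 1 fun _ => Or.inl rfl)
  let Q' : Seminorm ℂ Y.X := Q.comp ((C : ℂ) • LinearMap.id)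
  have hQ' : ∀ y, Q' y = C * Q y := by
    intro y
    show Q ((C : ℂ) • y) = C * Q y
    rw [map_smul_eq_mul, Complex.norm_real, Real.norm_of_nonneg hC0]
  refine ⟨α, Q', hα, ?_, fun y z F c hc => ?_⟩
  · have h9 : (Q' : Y.X → ℝ) = fun y => C * Q y := funext hQ'
    show Continuous (Q' : Y.X → ℝ)
    rw [h9]
    fun_prop
  · have h1 := sign_bound' (TB Ψ y) r (fun k => ⟨u k, h.mem k⟩) (fun k => mulP (u k) z) F
      (Q' y * c) fun ε hε => by
        have h2 : ∑ k ∈ F, ε k • mulP (u k) z = mulP (∑ k ∈ F, ε k • u k) z := by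
          rw [← mulPL_apply, map_sum, LinearMap.sum_apply]
          refine Finset.sum_congr rfl fun k _ => ?_
          rw [map_smul, LinearMap.smul_apply, mulPL_apply]
        have h3 : (∑ k ∈ F, ε k • (⟨u k, h.mem k⟩ : L)).1 = ∑ k ∈ F, ε k • u k := by
          rw [Submodule.coe_sum]
          rfl
        rw [TB_apply, h2]
        refine (hest _ _ _).trans ?_
        rw [h3]
        have h4 := hC F ε hε
        have h5 := hc ε hε
        have h6 := apply_nonneg Q y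
        have h7 := apply_nonneg P (∑ k ∈ F, ε k • u k)
        have h8 := apply_nonneg α (mulP (∑ k ∈ F, ε k • u k) z)
        rw [hQ']
        calc Q y * P (∑ k ∈ F, ε k • u k) * α (mulP (∑ k ∈ F, ε k • u k) z)
            ≤ Q y * C * α (mulP (∑ k ∈ F, ε k • u k) z) :=
              mul_le_mul_of_nonneg_right (mul_le_mul_of_nonneg_left h4 h6) h8
          _ ≤ Q y * C * c := mul_le_mul_of_nonneg_left h5 (mul_nonneg h6 hC0)
          _ = C * Q y * c := by ring
    exact h1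

end Pool.Agent.Helper20.FA
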