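import Pool.Agent.Helper20.FC.E3

/-!
# Sums along small families, the averaged map and injectivity
-/

open Topology Filter

namespace Pool.Agent.Helper20.FA

universe u v

attribute [local instance] IsFrechet.tag IsFrechet.csm IsFrechet.lcs

variable {A : Type u} [NonUnitalRing A] [Module ℂ A] [IsScalarTower ℂ A A] [SMulCommClass ℂ A A]
  [TopologicalSpace A] [IsFrechet A] [ContinuousMul A]

section

variable {f : ℕ → ℂ × A}

/-- Each neighbourhood of zero contains all but finitely many of the `f i A_+`. -/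
def Sml (f : ℕ → ℂ × A) : Prop :=
  ∀ U ∈ 𝓝 (0 : ℂ × A), ∃ n : ℕ, ∀ i, n ≤ i → ∀ z, mulP (f i) z ∈ U

theorem Sml.small_act (hf : Sml f) (X : FMod A) {q : Seminorm ℂ X.X} (hq : Continuous q) :
    ∃ n : ℕ, ∀ i, n ≤ i → ∀ x, q (X.actP (f i) x) = 0 := by
  have h1 : Continuous fun p : (ℂ × A) × X.X => q (X.actP p.1 p.2) :=
    hq.comp X.continuous_actP
  have h2 : {p : (ℂ × A) × X.X | q (X.actP p.1 p.2) < 1} ∈ 𝓝 ((0 : ℂ × A), (0 : X.X)) := by
    refine (isOpen_lt h1 continuous_const).mem_nhds ?_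
    simp [X.actP_zero]
  rw [nhds_prod_eq, Filter.mem_prod_iff] at h2
  obtain ⟨U, hU, V, hV, hUV⟩ := h2
  obtain ⟨n, hn⟩ := hf U hU
  refine ⟨n, fun i hi x => ?_⟩
  obtain ⟨r, hr, hrV⟩ : ∃ r : ℂ, r ≠ 0 ∧ r • x ∈ V := by
    have h3 : Continuous fun r : ℂ => r • x := by fun_prop
    have h4 : ∀ᶠ r : ℂ in 𝓝 0, r • x ∈ V := by
      have h5 := h3.continuousAt (x := (0 : ℂ))
      rw [ContinuousAt, zero_smul] at h5
      exact h5 hV
    obtain ⟨r, hr, hr0⟩ := ((h4.filter_mono nhdsWithin_le_nhds).and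
      (self_mem_nhdsWithin (s := {(0 : ℂ)}ᶜ))).exists
    exact ⟨r, hr0, hr⟩
  by_contra h6
  have h7 : 0 < q (X.actP (f i) x) := lt_of_le_of_ne (apply_nonneg _ _) (Ne.symm h6)
  have hr' : 0 < ‖r‖ := norm_pos_iff.2 hr
  set t : ℂ := (((‖r‖ * q (X.actP (f i) x))⁻¹ : ℝ) : ℂ) with ht
  have htn : ‖t‖ = (‖r‖ * q (X.actP (f i) x))⁻¹ := by
    rw [ht, Complex.norm_real, Real.norm_of_nonneg (by positivity)]
  have h8 : t • f i ∈ U := by
    have h9 := hn i hi (t • (1, 0))
    rwa [mulP_smul, mulP_one] at h9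
  have h10 : q (X.actP (t • f i) (r • x)) < 1 := hUV (Set.mk_mem_prod h8 hrV)
  rw [X.smul_actP, X.actP_smul, map_smul_eq_mul, map_smul_eq_mul, htn, ← mul_assoc,
    mul_inv, mul_assoc, mul_assoc] at h10
  have h11 : ‖r‖⁻¹ * ((q (X.actP (f i) x))⁻¹ * (‖r‖ * q (X.actP (f i) x))) = 1 := by
    field_simp
  rw [h11] at h10
  exact lt_irrefl _ h10

theorem Sml.summable (hf : Sml f) (X : FMod A) (y : ℕ → X.X) :
    Summable fun i => X.actP (f i) (y i) := by
  let : UniformSpace X.X := IsTopologicalAddGroup.rightUniformSpace X.X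
  have : IsUniformAddGroup X.X := isUniformAddGroup_of_addCommGroup
  have : CompleteSpace X.X := X.fre.complete
  rw [summable_iff_vanishing]
  intro e he
  obtain ⟨q, hq, hqe⟩ := exists_seminorm he
  obtain ⟨n, hn⟩ := hf.small_act X hq
  refine ⟨Finset.range n, fun t ht => hqe _ ?_⟩
  have h1 : q (∑ b ∈ t, X.actP (f b) (y b)) ≤ ∑ b ∈ t, q (X.actP (f b) (y b)) :=
    Finset.le_sum_of_subadditive q (map_zero q).le (map_add_le_add q) _ _
  refine h1.trans_lt ?_
  rw [Finset.sum_eq_zero]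
  · exact one_pos
  · intro b hb
    refine hn b ?_ _
    by_contra h2
    push Not at h2
    exact Finset.disjoint_left.1 ht hb (Finset.mem_range.2 h2)

/-- The sum map. -/
noncomputable def Sml.sumL (hf : Sml f) (X : FMod A) : (ℕ → X.X) →L[ℂ] X.X where
  toFun y := ∑' i, X.actP (f i) (y i)
  map_add' y z := by
    have := X.fre.metr
    rw [← (hf.summable X y).tsum_add (hf.summable X z)]
    congr 1
    funext i
    exact X.actP_add _ _ _
  map_smul' r y := by
    have := X.fre.metr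
    rw [RingHom.id_apply, ← (hf.summable X y).tsum_const_smul r]
    congr 1
    funext i
    exact X.actP_smul _ _ _
  cont := by
    have := X.fre.metr
    let T : (ℕ → X.X) →+ X.X :=
      { toFun := fun y => ∑' i, X.actP (f i) (y i)
        map_zero' := by
          have h1 : (fun i => X.actP (f i) ((0 : ℕ → X.X) i)) = fun _ => 0 := by
            funext i
            exact X.actP_zero _
          rw [h1, tsum_zero]
        map_add' := by
          intro y z
          rw [← (hf.summable X y).tsum_add (hf.summable X z)]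
          congr 1
          funext i
          exact X.actP_add _ _ _ }
    refine continuous_of_continuousAt_zero T ?_
    rw [ContinuousAt, map_zero]
    intro U hU
    obtain ⟨q, hq, hqU⟩ := exists_seminorm hU
    obtain ⟨n, hn⟩ := hf.small_act X hq
    have h1 : Continuous fun y : ℕ → X.X => q (∑ i ∈ Finset.range n, X.actP (f i) (y i)) := by
      refine hq.comp (continuous_finsetSum _ fun i _ => ?_)
      exact X.continuous_actP.comp (by fun_prop : Continuous fun y : ℕ → X.X => (f i, y i))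
    have h2 : {y : ℕ → X.X | q (∑ i ∈ Finset.range n, X.actP (f i) (y i)) < 1} ∈
        𝓝 (0 : ℕ → X.X) := by
      refine (isOpen_lt h1 continuous_const).mem_nhds ?_
      simp [X.actP_zero]
    rw [Filter.mem_map]
    filter_upwards [h2] with y hy
    refine hqU _ (lt_of_le_of_lt ?_ hy)
    have h3 : Tendsto (fun s : Finset ℕ => q (∑ i ∈ s, X.actP (f i) (y i))) atTop
        (𝓝 (q (T y))) := (hq.tendsto _).comp (hf.summable X y).hasSum
    refine le_of_tendsto h3 ?_
    filter_upwards [eventually_ge_atTop (Finset.range n)] with s hs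
    rw [← Finset.sum_sdiff hs]
    refine (map_add_le_add q _ _).trans ?_
    have h4 : q (∑ b ∈ s \ Finset.range n, X.actP (f b) (y b)) = 0 := by
      refine le_antisymm ?_ (apply_nonneg _ _)
      refine (Finset.le_sum_of_subadditive q (map_zero q).le (map_add_le_add q) _ _).trans ?_
      rw [Finset.sum_eq_zero]
      intro b hb
      rw [Finset.mem_sdiff, Finset.mem_range, not_lt] at hb
      exact hn b hb.2 _
    rw [h4, zero_add]

theorem Sml.sumL_apply (hf : Sml f) (X : FMod A) (y : ℕ → X.X) :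
    hf.sumL X y = ∑' i, X.actP (f i) (y i) := rfl

end

theorem continuous_of_bil {G H K : Type v} [AddCommGroup G] [Module ℂ G] [TopologicalSpace G]
    [IsFrechet G] [AddCommGroup H] [Module ℂ H] [TopologicalSpace H] [IsFrechet H]
    [AddCommGroup K] [Module ℂ K] [TopologicalSpace K] [IsFrechet K] (B : G →ₗ[ℂ] H →ₗ[ℂ] K)
    (hB : ∀ U ∈ 𝓝 (0 : K), ∃ (p : Seminorm ℂ G) (q : Seminorm ℂ H), Continuous p ∧
      Continuous q ∧ ∀ x y, p x * q y < 1 → B x y ∈ U) :
    Continuous fun p : G × H => B p.1 p.2 := by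
  refine continuous_bilin B ?_ ?_ ?_
  · rw [ContinuousAt]
    show Tendsto _ _ (𝓝 (B 0 0))
    rw [map_zero]
    intro U hU
    obtain ⟨p, q, hp, hq, h⟩ := hB U hU
    have h1 : Continuous fun z : G × H => p z.1 * q z.2 :=
      (hp.comp continuous_fst).mul (hq.comp continuous_snd)
    have h2 : {z : G × H | p z.1 * q z.2 < 1} ∈ 𝓝 ((0 : G), (0 : H)) := by
      refine (isOpen_lt h1 continuous_const).mem_nhds ?_
      simp
    rw [Filter.mem_map]
    filter_upwards [h2] with z hz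
    exact h _ _ hz
  · intro g
    refine continuous_of_continuousAt_zero (B g).toAddMonoidHom ?_
    rw [ContinuousAt, map_zero]
    intro U hU
    obtain ⟨p, q, hp, hq, h⟩ := hB U hU
    have h1 : Continuous fun y : H => p g * q y := continuous_const.mul hq
    have h2 : {y : H | p g * q y < 1} ∈ 𝓝 (0 : H) := by
      refine (isOpen_lt h1 continuous_const).mem_nhds ?_
      simp
    rw [Filter.mem_map]
    filter_upwards [h2] with y hy
    exact h _ _ hy
  · intro y
    refine continuous_of_continuousAt_zero (B.flip y).toAddMonoidHom ?_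
    rw [ContinuousAt, map_zero]
    intro U hU
    obtain ⟨p, q, hp, hq, h⟩ := hB U hU
    have h1 : Continuous fun x : G => p x * q y := hp.mul continuous_const
    have h2 : {x : G | p x * q y < 1} ∈ 𝓝 (0 : G) := by
      refine (isOpen_lt h1 continuous_const).mem_nhds ?_
      simp
    rw [Filter.mem_map]
    filter_upwards [h2] with x hx
    exact h _ _ hx

section

variable {L : Submodule ℂ (ℂ × A)} {P : Seminorm ℂ (ℂ × A)} {u : ℕ → ℂ × A}
  {E : Type u} [AddCommGroup E] [Module ℂ E] [TopologicalSpace E] [IsFrechet E] {Y : FMod A}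

theorem Piece.summ (h : Piece L P u) (Ψ : Y.X →L[ℂ] (L →L[ℂ] E)) (y : Y.X) {z : ℂ × A}
    (hz : z ∈ L) : Summable fun k => Ψ (Y.actP (mulP (u k) z) y) (⟨u k, h.mem k⟩ : L) := by
  have hE : IsFrechet E := inferInstance
  let : UniformSpace E := IsTopologicalAddGroup.rightUniformSpace E
  have : IsUniformAddGroup E := isUniformAddGroup_of_addCommGroup
  have : CompleteSpace E := hE.complete
  rw [summable_iff_vanishing]
  intro U hU
  obtain ⟨r, hr, hrU⟩ := exists_seminorm hU
  obtain ⟨α, Q, hα, hQ, hfin⟩ := h.fin Ψ hr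
  have hQ0 := apply_nonneg Q y
  have hV : {w : ℂ × A | α w < (Q y + 1)⁻¹} ∈ 𝓝 (0 : ℂ × A) := by
    refine (isOpen_lt hα continuous_const).mem_nhds ?_
    show α 0 < (Q y + 1)⁻¹
    rw [map_zero]
    positivity
  obtain ⟨N, hN⟩ := h.tail z hz _ hV
  refine ⟨Finset.range N, fun F hF => hrU _ ?_⟩
  have h1 := hfin y z F (Q y + 1)⁻¹ (fun ε hε => (hN F hF ε hε).le)
  refine h1.trans_lt ?_
  rw [← div_eq_mul_inv, div_lt_one (by positivity)]
  linarith

theorem Piece.sumBound (h : Piece L P u) (Ψ : Y.X →L[ℂ] (L →L[ℂ] E)) {r : Seminorm ℂ E}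
    (hr : Continuous r) : ∃ Q : Seminorm ℂ Y.X, Continuous Q ∧ ∀ (y : Y.X) (z : L),
      r (∑' k, Ψ (Y.actP (mulP (u k) z.1) y) (⟨u k, h.mem k⟩ : L)) ≤ Q y * P z.1 := by
  obtain ⟨α, Q, hα, hQ, hfin⟩ := h.fin Ψ hr
  have hP1 : IsFrechet (ℂ × A) := IsFrechet.prod
  obtain ⟨β, γ, hβ, hγ, hβγ⟩ := bil_bound (mulPL (A := A)) α (hα.comp continuous_mulP)
  obtain ⟨K1, hK1, hK1b⟩ := h.bound hβ
  obtain ⟨K2, hK2, hK2b⟩ := h.bound hγ
  obtain ⟨C, hC⟩ := h.bdd
  have hC0 : 0 ≤ C := (apply_nonneg P _).trans (hC ∅ 1 fun _ => Or.inl rfl)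
  set K : ℝ := K1 * C * K2 with hK
  have hK0 : 0 ≤ K := by positivity
  let Q' : Seminorm ℂ Y.X := Q.comp ((K : ℂ) • LinearMap.id)
  have hQ' : ∀ y, Q' y = K * Q y := by
    intro y
    show Q ((K : ℂ) • y) = K * Q y
    rw [map_smul_eq_mul, Complex.norm_real, Real.norm_of_nonneg hK0]
  refine ⟨Q', ?_, fun y z => ?_⟩
  · have h9 : (Q' : Y.X → ℝ) = fun y => K * Q y := funext hQ'
    show Continuous (Q' : Y.X → ℝ)
    rw [h9]
    fun_prop
  · have hs := (h.summ Ψ y z.2).hasSum
    have h1 : Tendsto (fun F : Finset ℕ =>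
        r (∑ k ∈ F, Ψ (Y.actP (mulP (u k) z.1) y) (⟨u k, h.mem k⟩ : L))) atTop
        (𝓝 (r (∑' k, Ψ (Y.actP (mulP (u k) z.1) y) (⟨u k, h.mem k⟩ : L)))) :=
      (hr.tendsto _).comp hs
    refine le_of_tendsto h1 (Eventually.of_forall fun F => ?_)
    have h2 := hfin y z.1 F (K * P z.1) fun ε hε => by
      have h3 := hβγ (∑ k ∈ F, ε k • u k) z.1
      rw [mulPL_apply] at h3
      have h4 : ∑ k ∈ F, ε k • u k ∈ L :=
        L.sum_mem fun k _ => L.smul_mem _ (h.mem k)
      have h5 := hK1b _ h4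
      have h6 := hK2b _ z.2
      have h7 := hC F ε hε
      have h8 := apply_nonneg P z.1
      have h9 := apply_nonneg γ z.1
      refine h3.trans ?_
      calc β (∑ k ∈ F, ε k • u k) * γ z.1 ≤ (K1 * C) * γ z.1 := by
            refine mul_le_mul_of_nonneg_right (h5.trans ?_) h9
            exact mul_le_mul_of_nonneg_left h7 hK1
        _ ≤ (K1 * C) * (K2 * P z.1) := mul_le_mul_of_nonneg_left h6 (mul_nonneg hK1 hC0)
        _ = K * P z.1 := by rw [hK]; ring
    rw [hQ']
    linarith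

/-- The averaged bilinear map. -/
noncomputable def Piece.avB (h : Piece L P u) (Ψ : Y.X →L[ℂ] (L →L[ℂ] E)) :
    Y.X →ₗ[ℂ] L →ₗ[ℂ] E :=
  LinearMap.mk₂ ℂ
    (fun y z => ∑' k, Ψ (Y.actP (mulP (u k) z.1) y) (⟨u k, h.mem k⟩ : L))
    (fun y y' z => by
      have := (inferInstance : IsFrechet E).metr
      rw [← (h.summ Ψ y z.2).tsum_add (h.summ Ψ y' z.2)]
      congr 1
      funext k
      rw [Y.actP_add, map_add]
      rfl)
    (fun r y z => by
      have := (inferInstance : IsFrechet E).metr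
      rw [← (h.summ Ψ y z.2).tsum_const_smul r]
      congr 1
      funext k
      rw [Y.actP_smul, map_smul]
      rfl)
    (fun y z z' => by
      have := (inferInstance : IsFrechet E).metr
      rw [← (h.summ Ψ y z.2).tsum_add (h.summ Ψ y z'.2)]
      congr 1
      funext k
      show Ψ (Y.actP (mulP (u k) (z.1 + z'.1)) y) _ = _
      rw [mulP_add, Y.add_actP, map_add]
      rfl)
    (fun r y z => by
      have := (inferInstance : IsFrechet E).metr
      rw [← (h.summ Ψ y z.2).tsum_const_smul r]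
      congr 1
      funext k
      show Ψ (Y.actP (mulP (u k) (r • z.1)) y) _ = _
      rw [mulP_smul, Y.smul_actP, map_smul]
      rfl)

theorem Piece.avB_apply (h : Piece L P u) (Ψ : Y.X →L[ℂ] (L →L[ℂ] E)) (y : Y.X) (z : L) :
    h.avB Ψ y z = ∑' k, Ψ (Y.actP (mulP (u k) z.1) y) (⟨u k, h.mem k⟩ : L) := rfl

theorem Piece.avB_cont (h : Piece L P u) (Ψ : Y.X →L[ℂ] (L →L[ℂ] E)) :
    Continuous fun p : Y.X × L => h.avB Ψ p.1 p.2 := by
  have hP1 : IsFrechet (ℂ × A) := IsFrechet.prod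
  have hL : IsFrechet L := IsFrechet.sub _ h.closed
  refine continuous_of_bil (h.avB Ψ) fun U hU => ?_
  obtain ⟨r, hr, hrU⟩ := exists_seminorm hU
  obtain ⟨Q, hQ, hQb⟩ := h.sumBound Ψ hr
  exact ⟨Q, P.comp L.subtype, hQ, h.cont.comp continuous_subtype_val,
    fun y z hyz => hrU _ ((hQb y z).trans_lt hyz)⟩

/-- The averaged map. -/
noncomputable def Piece.av (h : Piece L P u) (Ψ : Y.X →L[ℂ] (L →L[ℂ] E)) :
    Y.X →L[ℂ] (L →L[ℂ] E) :=
  let B : Y.X →ₗ[ℂ] (L →L[ℂ] E) :=
    { toFun := fun y => ⟨h.avB Ψ y, (h.avB_cont Ψ).comp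
        (by fun_prop : Continuous fun z : L => (y, z))⟩
      map_add' := fun x y => ContinuousLinearMap.ext fun z => by
        show h.avB Ψ (x + y) z = h.avB Ψ x z + h.avB Ψ y z
        rw [map_add, LinearMap.add_apply]
      map_smul' := fun r x => ContinuousLinearMap.ext fun z => by
        show h.avB Ψ (r • x) z = r • h.avB Ψ x z
        rw [map_smul, LinearMap.smul_apply] }
  ⟨B, ContinuousLinearMap.continuous_of_continuous_uncurry B (h.avB_cont Ψ)⟩

theorem Piece.av_apply (h : Piece L P u) (Ψ : Y.X →L[ℂ] (L →L[ℂ] E)) (y : Y.X) (z : L) :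
    h.av Ψ y z = ∑' k, Ψ (Y.actP (mulP (u k) z.1) y) (⟨u k, h.mem k⟩ : L) := rfl

/-- The modules `L(V, X)` are injective. -/
theorem Piece.injective (h : Piece L P u) (X : FMod A) : Injective (CofR h.R X) := by
  intro Y φ hφ ⟨ψ0, hψ0⟩
  let ψ0' : Y.X →L[ℂ] (L →L[ℂ] X.X) := ψ0
  have hφP : ∀ (w : ℂ × A) (j : (CofR h.R X).X),
      φ ((CofR h.R X).actP w j) = Y.actP w (φ j) := by
    intro w j
    rw [FMod.actP_def, FMod.actP_def, map_add, map_smul, hφ]
  refine ⟨h.av ψ0', fun a y => ?_, fun j => ?_⟩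
  · refine ContinuousLinearMap.ext fun z => ?_
    show ∑' k, ψ0' (Y.actP (mulP (u k) z.1) (Y.act a y)) (⟨u k, h.mem k⟩ : L) =
      ∑' k, ψ0' (Y.actP (mulP (u k) (mulP z.1 (0, a))) y) (⟨u k, h.mem k⟩ : L)
    congr 1
    funext k
    rw [← mulP_assoc, Y.actP_mulP _ ((0 : ℂ), a), ← act_eq_actP]
  · let g : (CofR h.R X).X → (L →L[ℂ] X.X) := fun j => j
    show h.av ψ0' (φ j) = g j
    refine ContinuousLinearMap.ext fun z => ?_
    rw [Piece.av_apply]
    have h1 : ∀ k, ψ0' (Y.actP (mulP (u k) z.1) (φ j)) (⟨u k, h.mem k⟩ : L) =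
        g j ⟨mulP (u k) (mulP (u k) z.1), h.stab _ (h.mem k) _⟩ := by
      intro k
      rw [← hφP]
      have h2 : ψ0' (φ ((CofR h.R X).actP (mulP (u k) z.1) j)) =
          g ((CofR h.R X).actP (mulP (u k) z.1) j) := hψ0 _
      rw [h2]
      have h3 : g ((CofR h.R X).actP (mulP (u k) z.1) j) (⟨u k, h.mem k⟩ : L) =
          (mulP (u k) z.1).1 • g j ⟨u k, h.mem k⟩ +
          g j ⟨mulP (u k) (0, (mulP (u k) z.1).2), h.stab _ (h.mem k) _⟩ := rfl
      rw [h3, ← map_smul, ← map_add]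
      congr 1
      refine Subtype.ext ?_
      show (mulP (u k) z.1).1 • u k + mulP (u k) (0, (mulP (u k) z.1).2) =
        mulP (u k) (mulP (u k) z.1)
      generalize mulP (u k) z.1 = w
      rw [mulP_def, mulP_def]
      refine Prod.ext ?_ ?_
      · simp [mul_comm]
      · simp
        abel
    simp_rw [h1]
    have h4 : HasSum (fun k => (⟨mulP (u k) (mulP (u k) z.1), h.stab _ (h.mem k) _⟩ : L)) z := by
      rw [← Topology.IsInducing.subtypeVal.hasSum_iff (g := L.subtype)]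
      exact h.sum z.1 z.2
    have := X.fre.metr
    exact (h4.mapL (g j)).tsum_eq

end

end Pool.Agent.Helper20.FA
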