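import Pool.Agent.Helper20.FC.E4

/-!
# Enough injectives from a partition of the unit
-/

open Topology Filter

namespace Pool.Agent.Helper20.FA

universe u v

attribute [local instance] IsFrechet.tag IsFrechet.csm IsFrechet.lcs

variable {A : Type u} [NonUnitalRing A] [Module ℂ A] [IsScalarTower ℂ A A] [SMulCommClass ℂ A A]
  [TopologicalSpace A] [IsFrechet A] [ContinuousMul A]

/-- Products of injective modules are injective. -/
theorem injective_piM {J : ℕ → FMod A} (hJ : ∀ i, Injective (J i))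
    (h : IsFrechet (∀ i, (J i).X)) : Injective (piM J h) := by
  intro Y φ hφ ⟨ψ0, hψ0⟩
  let N : Submodule ℂ Y.X := LinearMap.ker
    (ContinuousLinearMap.id ℂ Y.X - φ.comp ψ0).toLinearMap
  have hN : ∀ y, y ∈ N ↔ y = φ (ψ0 y) := by
    intro y
    show y - φ (ψ0 y) = 0 ↔ _
    rw [sub_eq_zero]
  have hmt := Y.fre.metr
  have hNc : IsClosed (N : Set Y.X) :=
    isClosed_eq (ContinuousLinearMap.id ℂ Y.X - φ.comp ψ0).continuous continuous_const
  have hNa : ∀ a : A, ∀ c ∈ N, Y.act a c ∈ N := by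
    intro a c hc
    rw [hN] at hc ⊢
    rw [hc, ← hφ, hψ0]
  let pr : ∀ i, (∀ i, (J i).X) →L[ℂ] (J i).X := fun i => ContinuousLinearMap.proj i
  let ψ0' : Y.X →L[ℂ] (∀ i, (J i).X) := ψ0
  have key : ∀ i, ∃ Φ : Y.X →L[ℂ] (J i).X, IsHom Y (J i) Φ ∧ ∀ c ∈ N, Φ c = (ψ0' c) i := by
    intro i
    obtain ⟨Φ, hΦ, hΦN⟩ := exists_hom (hJ i) N hNc hNa ((pr i).comp ψ0') (by
      intro a c hc
      rw [hN] at hc
      show (ψ0' (Y.act a c)) i = (J i).act a ((ψ0' c) i)
      have h1 : ψ0 (Y.act a c) = (piM J h).act a (ψ0 c) := by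
        conv_lhs => rw [hc, ← hφ, hψ0]
      exact congrFun h1 i)
    exact ⟨Φ, hΦ, hΦN⟩
  choose Φ hΦ hΦN using key
  let ψ : Y.X →L[ℂ] (∀ i, (J i).X) := ContinuousLinearMap.pi Φ
  refine ⟨ψ, fun a y => ?_, fun x => ?_⟩
  · funext i
    exact hΦ i a y
  · funext i
    show Φ i (φ x) = (show ∀ i, (J i).X from x) i
    rw [hΦN i (φ x) (by rw [hN, hψ0])]
    exact congrFun (hψ0 x) i

/-- A partition of the unit into products of elements of small right ideals and of pieces. -/
structure Part (L : ℕ → Submodule ℂ (ℂ × A)) (ψ φ : ℕ → ℂ × A) : Prop where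
  mem : ∀ i, φ i ∈ L i
  small : Sml ψ
  sum : Tendsto (fun n => ∑ i ∈ Finset.range n, mulP (ψ i) (φ i)) atTop (𝓝 (1, 0))

variable {L : ℕ → Submodule ℂ (ℂ × A)} {ψ φ : ℕ → ℂ × A} {P : ℕ → Seminorm ℂ (ℂ × A)}
  {u : ℕ → ℕ → ℂ × A}

/-- Enough injectives. -/
theorem Part.hasInjectiveCoresolution (hp : Part L ψ φ) (h : ∀ i, Piece (L i) (P i) (u i))
    (X : FMod A) : HasInjectiveCoresolution X := by
  refine hasInj_of_emb (fun X => ⟨?_⟩) X
  have hfr : IsFrechet (∀ i, (CofR (h i).R X).X) :=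
    IsFrechet.pi (F := fun i => (CofR (h i).R X).X)
  let e : X.X →L[ℂ] (∀ i, L i →L[ℂ] X.X) := ContinuousLinearMap.pi fun i => etaS (L i) X
  let s : (∀ i, L i →L[ℂ] X.X) →L[ℂ] X.X :=
    (hp.small.sumL X).comp (ContinuousLinearMap.pi fun i =>
      ({ toFun := fun j => j i ⟨φ i, hp.mem i⟩
         map_add' := fun _ _ => rfl
         map_smul' := fun _ _ => rfl
         cont := (continuous_eval_const _).comp (continuous_apply i) } :
        (∀ i, L i →L[ℂ] X.X) →L[ℂ] X.X))
  refine
    { J := piM (fun i => CofR (h i).R X) hfr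
      inj := injective_piM (fun i => (h i).injective X) hfr
      e := e
      s := s
      hom := ?_
      left := ?_ }
  · intro a x
    funext i
    refine ContinuousLinearMap.ext fun z => ?_
    show X.actP z.1 (X.act a x) = X.actP (mulP z.1 (0, a)) x
    rw [X.actP_mulP, ← act_eq_actP]
  · intro x
    show ∑' i, X.actP (ψ i) (X.actP (φ i) x) = x
    have := X.fre.metr
    have h1 := (hp.small.summable X fun i => X.actP (φ i) x).hasSum.tendsto_sum_nat
    have h2 : Tendsto (fun n => ∑ i ∈ Finset.range n, X.actP (ψ i) (X.actP (φ i) x)) atTop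
        (𝓝 (X.actP (1, 0) x)) := by
      have h3 : ∀ n, ∑ i ∈ Finset.range n, X.actP (ψ i) (X.actP (φ i) x) =
          X.actP (∑ i ∈ Finset.range n, mulP (ψ i) (φ i)) x := by
        intro n
        induction n with
        | zero =>
          rw [Finset.sum_range_zero, Finset.sum_range_zero, X.actP_def]
          simp
        | succ n ih =>
          rw [Finset.sum_range_succ, Finset.sum_range_succ, X.add_actP, ih, X.actP_mulP]
      simp_rw [h3]
      have h4 : Continuous fun z : ℂ × A => X.actP z x :=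
        X.continuous_actP.comp (by fun_prop : Continuous fun z : ℂ × A => (z, x))
      exact (h4.tendsto _).comp hp.sum
    rw [X.one_actP] at h2
    exact tendsto_nhds_unique h1 h2

end Pool.Agent.Helper20.FA
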