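import Mathlib

/-!
# A partition of the unit on the positive half line
-/

open Topology Filter

namespace Pool.Agent.Helper20.FA

/-- The cut off functions. -/
noncomputable def cK (k : ℕ) (t : ℝ) : ℝ := max 0 (min 1 (2 ^ (k + 1) * t - 1))

/-- The differences. -/
noncomputable def lam : ℕ → ℝ → ℝ
  | 0, t => cK 0 t
  | k + 1, t => cK (k + 1) t - cK k t

theorem cK_nonneg (k : ℕ) (t : ℝ) : 0 ≤ cK k t := le_max_left _ _

theorem cK_le_one (k : ℕ) (t : ℝ) : cK k t ≤ 1 := max_le zero_le_one (min_le_left _ _)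

theorem cK_mono {t : ℝ} (ht : 0 ≤ t) {k l : ℕ} (h : k ≤ l) : cK k t ≤ cK l t := by
  unfold cK
  have h1 : (2 : ℝ) ^ (k + 1) ≤ 2 ^ (l + 1) := pow_le_pow_right₀ (by norm_num) (by omega)
  have h2 : (2 : ℝ) ^ (k + 1) * t ≤ 2 ^ (l + 1) * t := mul_le_mul_of_nonneg_right h1 ht
  exact max_le_max le_rfl (min_le_min le_rfl (by linarith))

theorem lam_nonneg {t : ℝ} (ht : 0 ≤ t) (k : ℕ) : 0 ≤ lam k t := by
  cases k with
  | zero => exact cK_nonneg 0 t
  | succ k => exact sub_nonneg.2 (cK_mono ht (Nat.le_succ k))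

theorem lam_le_one (k : ℕ) (t : ℝ) : lam k t ≤ 1 := by
  cases k with
  | zero => exact cK_le_one 0 t
  | succ k =>
    have h1 := cK_nonneg k t
    have h2 := cK_le_one (k + 1) t
    show cK (k + 1) t - cK k t ≤ 1
    linarith

theorem sum_lam (n : ℕ) (t : ℝ) : ∑ k ∈ Finset.range (n + 1), lam k t = cK n t := by
  induction n with
  | zero =>
    rw [zero_add, Finset.sum_range_one]
    rfl
  | succ n ih =>
    rw [Finset.sum_range_succ, ih]
    show cK n t + (cK (n + 1) t - cK n t) = cK (n + 1) t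
    ring

theorem continuous_lam (k : ℕ) : Continuous (lam k) := by
  have h1 : ∀ k, Continuous (cK k) := by
    intro k
    unfold cK
    fun_prop
  cases k with
  | zero => exact h1 0
  | succ k => exact (h1 (k + 1)).sub (h1 k)

theorem cK_zero (k : ℕ) : cK k 0 = 0 := by
  unfold cK
  rw [mul_zero, zero_sub]
  refine max_eq_left ?_
  exact (min_le_right _ _).trans (by norm_num)

theorem lam_zero (k : ℕ) : lam k 0 = 0 := by
  cases k with
  | zero => exact cK_zero 0
  | succ k =>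
    show cK (k + 1) 0 - cK k 0 = 0
    rw [cK_zero, cK_zero, sub_zero]

theorem lam_eq_zero_of_one {t : ℝ} (ht : 0 ≤ t) {N k : ℕ} (h : cK N t = 1) (hk : N < k) :
    lam k t = 0 := by
  obtain ⟨j, rfl⟩ : ∃ j, k = j + 1 := ⟨k - 1, by omega⟩
  have h1 : cK j t = 1 := le_antisymm (cK_le_one _ _) (h ▸ cK_mono ht (by omega))
  have h2 : cK (j + 1) t = 1 := le_antisymm (cK_le_one _ _) (h ▸ cK_mono ht (by omega))
  show cK (j + 1) t - cK j t = 0
  rw [h1, h2, sub_self]

theorem cK_succ_eq_one {t : ℝ} {k : ℕ} (h : 0 < cK k t) : cK (k + 1) t = 1 := by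
  unfold cK at h ⊢
  have h1 : 0 < min 1 (2 ^ (k + 1) * t - 1) := by
    by_contra h0
    push Not at h0
    rw [max_eq_left h0] at h
    exact lt_irrefl _ h
  have h2 : 0 < 2 ^ (k + 1) * t - 1 := h1.trans_le (min_le_right _ _)
  have h3 : 1 ≤ 2 ^ (k + 1 + 1) * t - 1 := by
    rw [pow_succ]
    nlinarith
  rw [min_eq_left h3]
  exact max_eq_right zero_le_one

theorem exists_two {t : ℝ} (ht : 0 ≤ t) : ∃ k0 : ℕ, ∀ k, lam k t ≠ 0 → k = k0 ∨ k = k0 + 1 := by
  by_cases h : ∃ k, 0 < cK k t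
  · classical
    refine ⟨Nat.find h, fun k hk => ?_⟩
    have h1 := Nat.find_spec h
    have h2 : cK (Nat.find h + 1) t = 1 := cK_succ_eq_one h1
    have h3 : k ≤ Nat.find h + 1 := by
      by_contra h4
      exact hk (lam_eq_zero_of_one ht h2 (by omega))
    have h5 : Nat.find h ≤ k := by
      by_contra h4
      push Not at h4
      have h6 : ∀ j, j ≤ k → cK j t = 0 := fun j hj =>
        le_antisymm (not_lt.1 (Nat.find_min h (by omega))) (cK_nonneg j t)
      apply hk
      cases k with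
      | zero => exact h6 0 le_rfl
      | succ k =>
        show cK (k + 1) t - cK k t = 0
        rw [h6 _ le_rfl, h6 _ (by omega), sub_zero]
    omega
  · push Not at h
    have h6 : ∀ j, cK j t = 0 := fun j => le_antisymm (h j) (cK_nonneg j t)
    refine ⟨0, fun k hk => (hk ?_).elim⟩
    cases k with
    | zero => exact h6 0
    | succ k =>
      show cK (k + 1) t - cK k t = 0
      rw [h6, h6, sub_zero]

theorem sum_sqrt_lam {t : ℝ} (ht : 0 ≤ t) (F : Finset ℕ) :
    ∑ k ∈ F, Real.sqrt (lam k t) ≤ 2 := by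
  obtain ⟨k0, hk0⟩ := exists_two ht
  classical
  have h1 : ∑ k ∈ F, Real.sqrt (lam k t) = ∑ k ∈ F ∩ {k0, k0 + 1}, Real.sqrt (lam k t) := by
    symm
    refine Finset.sum_subset Finset.inter_subset_left fun k hk hk' => ?_
    have h2 : lam k t = 0 := by
      by_contra h3
      apply hk'
      rw [Finset.mem_inter]
      refine ⟨hk, ?_⟩
      rcases hk0 k h3 with rfl | rfl
      · simp
      · simp
    rw [h2, Real.sqrt_zero]
  rw [h1]
  have h2 : ∑ k ∈ F ∩ {k0, k0 + 1}, Real.sqrt (lam k t) ≤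
      ∑ k ∈ ({k0, k0 + 1} : Finset ℕ), Real.sqrt (lam k t) :=
    Finset.sum_le_sum_of_subset_of_nonneg Finset.inter_subset_right
      fun k _ _ => Real.sqrt_nonneg _
  refine h2.trans ?_
  rw [Finset.sum_pair (by omega)]
  have h3 : ∀ k, Real.sqrt (lam k t) ≤ 1 := by
    intro k
    rw [Real.sqrt_le_one]
    exact lam_le_one k t
  have := h3 k0
  have := h3 (k0 + 1)
  linarith

theorem exists_cK_one {η : ℝ} (hη : 0 < η) : ∃ N : ℕ, ∀ t, η ≤ t → cK N t = 1 := by
  obtain ⟨n, hn⟩ := pow_unbounded_of_one_lt (2 / η) (by norm_num : (1 : ℝ) < 2)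
  refine ⟨n, fun t ht => ?_⟩
  unfold cK
  have h1 : 2 < 2 ^ n * η := by rwa [div_lt_iff₀ hη] at hn
  have h2 : (2 : ℝ) ^ n * η ≤ 2 ^ (n + 1) * t := by
    have h3 : (2 : ℝ) ^ n ≤ 2 ^ (n + 1) := pow_le_pow_right₀ (by norm_num) (by omega)
    exact mul_le_mul h3 ht hη.le (by positivity)
  rw [min_eq_left (by linarith)]
  exact max_eq_right zero_le_one

end Pool.Agent.Helper20.FA
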