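import Pool.Agent.Helper20.FC.E5
import Pool.Agent.Helper20.FC.F1
import Pool.Agent.Helper20.FK.K3

/-!
# Continuous functions
-/

open Topology Filter Uniformity

namespace Pool.Agent.Helper20.FA

universe u v

variable {X : Type u} [TopologicalSpace X] {B : Type v} [NormedRing B] [NormedAlgebra ℂ B]

theorem isUniformAddGroup_CX : IsUniformAddGroup C(X, B) := by
  refine ⟨fun V hV => ?_⟩
  obtain ⟨K, W, hK, hW, hKW⟩ := (ContinuousMap.mem_compactConvergence_entourage_iff V).1 hV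
  obtain ⟨ε, hε, hεW⟩ := Metric.mem_uniformity_dist.1 hW
  let V' : Set (C(X, B) × C(X, B)) :=
    {fg | ∀ x ∈ K, (fg.1 x, fg.2 x) ∈ {p : B × B | dist p.1 p.2 < ε / 2}}
  have hV' : V' ∈ 𝓤 C(X, B) := (ContinuousMap.mem_compactConvergence_entourage_iff V').2
    ⟨K, _, hK, Metric.dist_mem_uniformity (half_pos hε), subset_rfl⟩
  have h1 := uniformContinuous_fst (α := C(X, B)) (β := C(X, B)) hV'
  have h2 := uniformContinuous_snd (α := C(X, B)) (β := C(X, B)) hV'
  rw [Filter.mem_map]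
  filter_upwards [Filter.mem_map.1 h1, Filter.mem_map.1 h2] with q hq1 hq2
  refine hKW fun x hx => hεW ?_
  have h3 : dist (q.1.1 x) (q.2.1 x) < ε / 2 := hq1 x hx
  have h4 : dist (q.1.2 x) (q.2.2 x) < ε / 2 := hq2 x hx
  show dist (q.1.1 x - q.1.2 x) (q.2.1 x - q.2.2 x) < ε
  refine (dist_sub_sub_le _ _ _ _).trans_lt ?_
  linarith

theorem isFrechet_CX [CompleteSpace B] [T2Space X] [LocallyCompactSpace X] [SigmaCompactSpace X] :
    IsFrechet C(X, B) := by
  refine ⟨inferInstance, inferInstance, ?_, ?_, ?_⟩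
  · exact inferInstanceAs (LocallyConvexSpace ℝ C(X, B))
  · have : IsCountablyGenerated (𝓤 C(X, B)) := inferInstance
    have : T0Space C(X, B) := inferInstance
    exact UniformSpace.metrizableSpace
  · have h0 : IsUniformAddGroup C(X, B) := isUniformAddGroup_CX
    have h1 : IsTopologicalAddGroup.rightUniformSpace C(X, B) =
        (inferInstanceAs (UniformSpace C(X, B))) :=
      IsUniformAddGroup.rightUniformSpace_eq
    rw [h1]
    infer_instance

theorem mem_nhds_CX {U : Set C(X, B)} (hU : U ∈ 𝓝 (0 : C(X, B))) :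
    ∃ K : Set X, IsCompact K ∧ ∃ ε : ℝ, 0 < ε ∧
      ∀ f : C(X, B), (∀ x ∈ K, ‖f x‖ < ε) → f ∈ U := by
  obtain ⟨V, hV, hVU⟩ := UniformSpace.mem_nhds_iff.1 hU
  obtain ⟨K, W, hK, hW, hKW⟩ := (ContinuousMap.mem_compactConvergence_entourage_iff V).1 hV
  obtain ⟨ε, hε, hεW⟩ := Metric.mem_uniformity_dist.1 hW
  refine ⟨K, hK, ε, hε, fun f hf => hVU ?_⟩
  refine hKW fun x hx => hεW ?_
  show dist ((0 : C(X, B)) x) (f x) < ε
  rw [ContinuousMap.zero_apply, dist_zero_left]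
  exact hf x hx

/-- The restriction. -/
noncomputable def resL (K : Set X) : C(X, B) →ₗ[ℂ] C(K, B) where
  toFun := fun f => f.restrict K
  map_add' := fun _ _ => rfl
  map_smul' := fun _ _ => rfl

/-- The supremum seminorm. -/
noncomputable def supK (K : Set X) (hK : IsCompact K) : Seminorm ℂ C(X, B) :=
  have : CompactSpace K := isCompact_iff_compactSpace.1 hK
  (normSeminorm ℂ C(K, B)).comp (resL K)

theorem continuous_supK (K : Set X) (hK : IsCompact K) : Continuous (supK (B := B) K hK) := by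
  have : CompactSpace K := isCompact_iff_compactSpace.1 hK
  show Continuous fun f : C(X, B) => ‖f.restrict K‖
  exact continuous_norm.comp (ContinuousMap.continuous_restrict K)

theorem le_supK {K : Set X} (hK : IsCompact K) (f : C(X, B)) {x : X} (hx : x ∈ K) :
    ‖f x‖ ≤ supK K hK f := by
  have : CompactSpace K := isCompact_iff_compactSpace.1 hK
  exact ContinuousMap.norm_coe_le_norm (f.restrict K) ⟨x, hx⟩

theorem supK_le {K : Set X} (hK : IsCompact K) (f : C(X, B)) {c : ℝ} (hc : 0 ≤ c)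
    (h : ∀ x ∈ K, ‖f x‖ ≤ c) : supK K hK f ≤ c := by
  have : CompactSpace K := isCompact_iff_compactSpace.1 hK
  exact (ContinuousMap.norm_le (f.restrict K) hc).2 fun x => h x.1 x.2

/-- The functions `u k`. -/
noncomputable def uG (B : Type v) [NormedRing B] [NormedAlgebra ℂ B] (g : C(X, ℝ)) (k : ℕ) :
    C(X, B) :=
  ⟨fun x => ((Real.sqrt (lam k (g x)) : ℝ) : ℂ) • (1 : B), by
    exact (Complex.continuous_ofReal.comp
      (Real.continuous_sqrt.comp ((continuous_lam k).comp g.continuous))).smul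
      continuous_const⟩

theorem uG_apply (g : C(X, ℝ)) (k : ℕ) (x : X) :
    uG B g k x = ((Real.sqrt (lam k (g x)) : ℝ) : ℂ) • (1 : B) := rfl

/-- The functions vanishing where `g` does. -/
def Lg (B : Type v) [NormedRing B] [NormedAlgebra ℂ B] (g : C(X, ℝ)) :
    Submodule ℂ (ℂ × C(X, B)) where
  carrier := {z | z.1 = 0 ∧ ∀ x, g x = 0 → z.2 x = 0}
  add_mem' := by
    rintro z w ⟨h1, h2⟩ ⟨h3, h4⟩
    refine ⟨?_, fun x hx => ?_⟩
    · rw [Prod.fst_add, h1, h3, add_zero]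
    · rw [Prod.snd_add, ContinuousMap.add_apply, h2 x hx, h4 x hx, add_zero]
  zero_mem' := ⟨rfl, fun _ _ => rfl⟩
  smul_mem' := by
    rintro r z ⟨h1, h2⟩
    refine ⟨?_, fun x hx => ?_⟩
    · rw [Prod.smul_fst, h1, smul_zero]
    · rw [Prod.smul_snd, ContinuousMap.smul_apply, h2 x hx, smul_zero]

theorem mem_Lg {g : C(X, ℝ)} {z : ℂ × C(X, B)} :
    z ∈ Lg B g ↔ z.1 = 0 ∧ ∀ x, g x = 0 → z.2 x = 0 := Iff.rfl

theorem isClosed_Lg (g : C(X, ℝ)) : IsClosed (Lg B g : Set (ℂ × C(X, B))) := by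
  have h1 : (Lg B g : Set (ℂ × C(X, B))) =
      {z | z.1 = 0} ∩ ⋂ x : X, ⋂ _ : g x = 0, {z | z.2 x = 0} := by
    ext z
    simp only [Set.mem_inter_iff, Set.mem_iInter, Set.mem_ofPred_eq]
    exact Iff.rfl
  rw [h1]
  refine IsClosed.inter (isClosed_eq continuous_fst continuous_const) ?_
  refine isClosed_iInter fun x => isClosed_iInter fun _ => ?_
  exact isClosed_eq ((continuous_eval_const x).comp continuous_snd)
    continuous_const

theorem mulP_zero_left (s : C(X, B)) {z : ℂ × C(X, B)} (hz : z.1 = 0) :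
    mulP (0, s) z = (0, s * z.2) := by
  rw [mulP_def, hz]
  refine Prod.ext (mul_zero _) ?_
  refine ContinuousMap.ext fun x => ?_
  show (0 : ℂ) • z.2 x + (0 : ℂ) • s x + s x * z.2 x = s x * z.2 x
  rw [zero_smul, zero_smul, zero_add, zero_add]

theorem sum_uG (g : C(X, ℝ)) (F : Finset ℕ) (ε : ℕ → ℂ) :
    ∑ k ∈ F, ε k • ((0 : ℂ), uG B g k) = (0, ∑ k ∈ F, ε k • uG B g k) := by
  classical
  induction F using Finset.induction_on with
  | empty => rfl
  | insert j F hj ih =>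
    rw [Finset.sum_insert hj, Finset.sum_insert hj, ih]
    refine Prod.ext ?_ rfl
    show ε j • (0 : ℂ) + 0 = 0
    rw [smul_zero, add_zero]

theorem norm_sum_uG (g : C(X, ℝ)) (F : Finset ℕ) {ε : ℕ → ℂ} (hε : IsSign ε) (x : X) :
    ‖(∑ k ∈ F, ε k • uG B g k) x‖ ≤ (∑ k ∈ F, Real.sqrt (lam k (g x))) * ‖(1 : B)‖ := by
  rw [ContinuousMap.sum_apply, Finset.sum_mul]
  refine (norm_sum_le _ _).trans (Finset.sum_le_sum fun k _ => ?_)
  rw [ContinuousMap.smul_apply, uG_apply, norm_smul, norm_smul, Complex.norm_real,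
    Real.norm_of_nonneg (Real.sqrt_nonneg _)]
  have h1 : ‖ε k‖ = 1 := by
    rcases hε k with h | h <;> rw [h] <;> simp
  rw [h1, one_mul]

theorem exists_small {g : C(X, ℝ)} (hg0 : ∀ x, 0 ≤ g x) (hgc : HasCompactSupport g)
    {z : ℂ × C(X, B)} (hz : z ∈ Lg B g) {δ : ℝ} (hδ : 0 < δ) :
    ∃ N : ℕ, ∀ x, ‖z.2 x‖ < δ ∨ cK N (g x) = 1 := by
  have hS : IsClosed {x : X | δ ≤ ‖z.2 x‖} :=
    isClosed_le continuous_const z.2.continuous.norm
  have hne : ∀ x, δ ≤ ‖z.2 x‖ → g x ≠ 0 := by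
    intro x hx h0
    rw [(mem_Lg.1 hz).2 x h0, norm_zero] at hx
    linarith
  have hSc : IsCompact {x : X | δ ≤ ‖z.2 x‖} :=
    hgc.isCompact.of_isClosed_subset hS fun x hx => subset_tsupport g (hne x hx)
  by_cases hemp : {x : X | δ ≤ ‖z.2 x‖}.Nonempty
  · obtain ⟨x0, hx0, hmin⟩ := hSc.exists_isMinOn hemp g.continuous.continuousOn
    have hpos : 0 < g x0 := lt_of_le_of_ne (hg0 x0) (Ne.symm (hne x0 hx0))
    obtain ⟨N, hN⟩ := exists_cK_one hpos
    refine ⟨N, fun x => ?_⟩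
    by_cases hx : δ ≤ ‖z.2 x‖
    · exact Or.inr (hN _ (hmin hx))
    · exact Or.inl (not_le.1 hx)
  · refine ⟨0, fun x => Or.inl ?_⟩
    by_contra hx
    exact hemp ⟨x, not_lt.1 hx⟩

end Pool.Agent.Helper20.FA
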