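import Pool.Agent.Helper20.FC.G2

/-!
# The pieces of the algebra of continuous functions
-/

open Topology Filter Uniformity

namespace Pool.Agent.Helper20.FA

universe u v

variable {X : Type u} [TopologicalSpace X] [T2Space X] [LocallyCompactSpace X]
  [SigmaCompactSpace X] {B : Type v} [NormedRing B] [NormedAlgebra ℂ B] [CompleteSpace B]

attribute [local instance] isFrechet_CX

theorem stab_Lg (g : C(X, ℝ)) : ∀ z ∈ Lg B g, ∀ w, mulP z w ∈ Lg B g := by
  rintro z ⟨h1, h2⟩ w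
  refine ⟨?_, fun x hx => ?_⟩
  · show z.1 * w.1 = 0
    rw [h1, zero_mul]
  · show z.1 • w.2 x + w.1 • z.2 x + z.2 x * w.2 x = 0
    rw [h1, h2 x hx, zero_smul, smul_zero, zero_mul, add_zero, add_zero]

theorem lam_sum_le {t : ℝ} (ht : 0 ≤ t) (F : Finset ℕ) : ∑ k ∈ F, lam k t ≤ 1 := by
  obtain ⟨M, hM⟩ := F.exists_nat_subset_range
  have h1 : ∑ k ∈ F, lam k t ≤ ∑ k ∈ Finset.range (M + 1), lam k t :=
    Finset.sum_le_sum_of_subset_of_nonneg
      (hM.trans (Finset.range_subset_range.2 (Nat.le_succ M))) fun k _ _ => lam_nonneg ht k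
  rw [sum_lam] at h1
  exact h1.trans (cK_le_one M t)

theorem mul_uG {g : C(X, ℝ)} (hg0 : ∀ x, 0 ≤ g x) (k : ℕ) (f : C(X, B)) (x : X) :
    (uG B g k * (uG B g k * f)) x = ((lam k (g x) : ℝ) : ℂ) • f x := by
  show uG B g k x * (uG B g k x * f x) = _
  rw [uG_apply, smul_one_mul, smul_one_mul, smul_smul, ← Complex.ofReal_mul,
    Real.mul_self_sqrt (lam_nonneg (hg0 x) k)]

theorem hasSum_uG {g : C(X, ℝ)} (hg0 : ∀ x, 0 ≤ g x) (hgc : HasCompactSupport g)
    {z : ℂ × C(X, B)} (hz : z ∈ Lg B g) :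
    HasSum (fun k => uG B g k * (uG B g k * z.2)) z.2 := by
  show Tendsto _ _ _
  rw [← tendsto_sub_nhds_zero_iff]
  intro U hU
  obtain ⟨K, -, ε, hε, hKU⟩ := mem_nhds_CX hU
  obtain ⟨N, hN⟩ := exists_small hg0 hgc hz (half_pos hε)
  rw [Filter.mem_map]
  filter_upwards [eventually_ge_atTop (Finset.range (N + 1))] with F hF
  refine hKU _ fun x _ => ?_
  have h1 : ((∑ k ∈ F, uG B g k * (uG B g k * z.2)) - z.2) x =
      ((∑ k ∈ F, lam k (g x) - 1 : ℝ) : ℂ) • z.2 x := by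
    rw [ContinuousMap.sub_apply, ContinuousMap.sum_apply]
    simp_rw [mul_uG hg0]
    rw [← Finset.sum_smul, Complex.ofReal_sub, Complex.ofReal_sum, Complex.ofReal_one, sub_smul,
      one_smul]
  rw [h1, norm_smul, Complex.norm_real]
  rcases hN x with hx | hx
  · have h2 : ‖∑ k ∈ F, lam k (g x) - 1‖ ≤ 1 := by
      rw [Real.norm_eq_abs, abs_le]
      have h3 := lam_sum_le (hg0 x) F
      have h4 : 0 ≤ ∑ k ∈ F, lam k (g x) := Finset.sum_nonneg fun k _ => lam_nonneg (hg0 x) k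
      constructor <;> linarith
    have h5 := norm_nonneg (z.2 x)
    nlinarith
  · have h2 : ∑ k ∈ F, lam k (g x) = 1 := by
      rw [← hx, ← sum_lam N (g x)]
      symm
      refine Finset.sum_subset hF fun k _ hk => ?_
      rw [Finset.mem_range, not_lt] at hk
      exact lam_eq_zero_of_one (hg0 x) hx (by omega)
    rw [h2, sub_self, norm_zero, zero_mul]
    exact hε

theorem piece_Lg {g : C(X, ℝ)} (hg0 : ∀ x, 0 ≤ g x) (hgc : HasCompactSupport g) :
    Piece (Lg B g) (semP (supK (tsupport g) hgc)) (fun k => ((0 : ℂ), uG B g k)) where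
  closed := isClosed_Lg g
  stab := stab_Lg g
  cont := continuous_semP (continuous_supK _ _)
  nrm := by
    intro U hU
    have h0 : U ∈ 𝓝 ((0 : ℂ), (0 : C(X, B))) := hU
    rw [nhds_prod_eq, Filter.mem_prod_iff] at h0
    obtain ⟨V1, hV1, V2, hV2, hV⟩ := h0
    obtain ⟨K, -, ε, hε, hKU⟩ := mem_nhds_CX hV2
    refine ⟨ε, hε, fun z hz hzP => hV ⟨?_, hKU _ fun x _ => ?_⟩⟩
    · have h1 : z.1 = 0 := hz.1
      rw [h1]
      exact mem_of_mem_nhds hV1
    · rw [semP_apply] at hzP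
      by_cases hx : g x = 0
      · rw [hz.2 x hx, norm_zero]
        exact hε
      · have h2 := le_supK hgc z.2 (subset_tsupport g hx)
        have h3 := norm_nonneg z.1
        linarith
  mem := by
    intro k
    refine ⟨rfl, fun x hx => ?_⟩
    show uG B g k x = 0
    rw [uG_apply, hx, lam_zero, Real.sqrt_zero, Complex.ofReal_zero, zero_smul]
  bdd := by
    refine ⟨2 * ‖(1 : B)‖, fun F ε hε => ?_⟩
    rw [sum_uG, semP_apply, norm_zero, zero_add]
    exact supK_le hgc _ (by positivity) fun x _ => (norm_sum_uG g F hε x).trans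
      (mul_le_mul_of_nonneg_right (sum_sqrt_lam (hg0 x) F) (norm_nonneg _))
  tail := by
    intro z hz U hU
    have h0 : U ∈ 𝓝 ((0 : ℂ), (0 : C(X, B))) := hU
    rw [nhds_prod_eq, Filter.mem_prod_iff] at h0
    obtain ⟨V1, hV1, V2, hV2, hV⟩ := h0
    obtain ⟨K, -, δ, hδ, hKU⟩ := mem_nhds_CX hV2
    have hc : 0 < 2 * ‖(1 : B)‖ + 1 := by positivity
    obtain ⟨N, hN⟩ := exists_small hg0 hgc hz (div_pos hδ hc)
    refine ⟨N + 1, fun F hF ε hε => ?_⟩
    rw [sum_uG, mulP_zero_left _ hz.1]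
    refine hV (Set.mk_mem_prod (mem_of_mem_nhds hV1) (hKU _ fun x _ => ?_))
    rw [ContinuousMap.mul_apply]
    refine (norm_mul_le _ _).trans_lt ?_
    have h1 := norm_sum_uG (B := B) g F hε x
    have h5 := norm_nonneg (z.2 x)
    rcases hN x with hx | hx
    · have h2 := h1.trans (mul_le_mul_of_nonneg_right (sum_sqrt_lam (hg0 x) F)
        (norm_nonneg (1 : B)))
      rw [lt_div_iff₀ hc] at hx
      have h7 : ‖(∑ k ∈ F, ε k • uG B g k) x‖ * ‖z.2 x‖ ≤ 2 * ‖(1 : B)‖ * ‖z.2 x‖ :=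
        mul_le_mul_of_nonneg_right h2 h5
      linarith
    · have h2 : ∑ k ∈ F, Real.sqrt (lam k (g x)) = 0 := by
        refine Finset.sum_eq_zero fun k hk => ?_
        have h3 : N < k := by
          by_contra h4
          exact Finset.disjoint_left.1 hF hk (Finset.mem_range.2 (by omega))
        rw [lam_eq_zero_of_one (hg0 x) hx h3, Real.sqrt_zero]
      rw [h2, zero_mul] at h1
      have h6 : ‖(∑ k ∈ F, ε k • uG B g k) x‖ = 0 := le_antisymm h1 (norm_nonneg _)
      rw [h6, zero_mul]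
      exact hδ
  sum := by
    intro z hz
    have h1 : (fun k => mulP ((0 : ℂ), uG B g k) (mulP ((0 : ℂ), uG B g k) z)) =
        fun k => ((0 : ℂ), uG B g k * (uG B g k * z.2)) := by
      funext k
      rw [mulP_zero_left _ hz.1]
      exact mulP_zero_left _ rfl
    rw [h1]
    have h2 := (hasSum_zero (α := ℂ) (β := ℕ)).prodMk (hasSum_uG hg0 hgc hz)
    have h3 : ((0 : ℂ), z.2) = z := Prod.ext hz.1.symm rfl
    rwa [h3] at h2

end Pool.Agent.Helper20.FA
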