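import Pool.Agent.Helper20.FC.G3

/-!
# The partition of the unit
-/

open Topology Filter Uniformity

namespace Pool.Agent.Helper20.FA

universe u v

attribute [local instance] isFrechet_CX

theorem piece_fixP {A : Type u} [NonUnitalRing A] [Module ℂ A] [IsScalarTower ℂ A A]
    [SMulCommClass ℂ A A] [TopologicalSpace A] [IsFrechet A] [ContinuousMul A] {f : ℂ × A}
    (hff : mulP f f = f) {P : Seminorm ℂ (ℂ × A)} (hP : Continuous P)
    (hn : ∀ U ∈ 𝓝 (0 : ℂ × A), ∃ r : ℝ, 0 < r ∧ ∀ z ∈ fixP f, P z < r → z ∈ U) :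
    Piece (fixP f) P (fun k => if k = 0 then f else 0) where
  closed := isClosed_fixP f
  stab := fun z hz w => mulP_mem_fixP hz w
  cont := hP
  nrm := hn
  mem := by
    intro k
    split_ifs
    · exact hff
    · exact (fixP f).zero_mem
  bdd := by
    refine ⟨P f, fun F ε hε => ?_⟩
    have h1 : ∑ k ∈ F, ε k • (if k = 0 then f else 0) = if 0 ∈ F then ε 0 • f else 0 := by
      simp_rw [smul_ite, smul_zero]
      rw [Finset.sum_ite_eq' F 0 (fun k => ε k • f)]
    rw [h1]
    split_ifs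
    · rw [map_smul_eq_mul]
      have h2 : ‖ε 0‖ = 1 := by
        rcases hε 0 with h | h <;> rw [h] <;> simp
      rw [h2, one_mul]
    · rw [map_zero]
      exact apply_nonneg P f
  tail := by
    intro z _ U hU
    refine ⟨1, fun F hF ε _ => ?_⟩
    have h1 : ∑ k ∈ F, ε k • (if k = 0 then f else 0) = 0 := by
      refine Finset.sum_eq_zero fun k hk => ?_
      have h2 : k ≠ 0 := by
        rintro rfl
        exact Finset.disjoint_left.1 hF hk (Finset.mem_range.2 (by omega))
      rw [if_neg h2, smul_zero]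
    rw [h1]
    have h3 : mulP 0 z = 0 := by
      have h4 := smul_mulP (0 : ℂ) z z
      rwa [zero_smul, zero_smul] at h4
    rw [h3]
    exact mem_of_mem_nhds hU
  sum := by
    intro z hz
    have h1 : HasSum (fun k : ℕ => mulP (if k = 0 then f else 0)
        (mulP (if k = 0 then f else 0) z)) (mulP (if (0 : ℕ) = 0 then f else 0)
        (mulP (if (0 : ℕ) = 0 then f else 0) z)) := by
      refine hasSum_single 0 fun k hk => ?_
      rw [if_neg hk]
      generalize mulP 0 z = w
      have h4 := smul_mulP (0 : ℂ) w w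
      rwa [zero_smul, zero_smul] at h4
    rw [if_pos rfl] at h1
    have h2 : mulP f z = z := hz
    rw [h2, h2] at h1
    exact h1

variable {X : Type u} [TopologicalSpace X] [T2Space X] [LocallyCompactSpace X]
  [SigmaCompactSpace X] {B : Type v} [NormedRing B] [NormedAlgebra ℂ B] [CompleteSpace B]

/-- The idempotent `1 - e`, where `e` is the unit of the algebra. -/
noncomputable def fX : ℂ × C(X, B) := (1, -1)

theorem fX_mulP (z : ℂ × C(X, B)) : mulP fX z = (z.1, -(z.1 • (1 : C(X, B)))) := by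
  refine Prod.ext (one_mul z.1) (ContinuousMap.ext fun x => ?_)
  show (1 : ℂ) • z.2 x + z.1 • (-1 : B) + (-1 : B) * z.2 x = -(z.1 • (1 : B))
  rw [one_smul, smul_neg, neg_one_mul]
  abel

theorem piece_fX : ∃ P : Seminorm ℂ (ℂ × C(X, B)),
    Piece (fixP fX) P (fun k => if k = 0 then fX else 0) := by
  let P : Seminorm ℂ (ℂ × C(X, B)) :=
    (normSeminorm ℂ ℂ).comp (LinearMap.fst ℂ ℂ C(X, B))
  have hP : ∀ z, P z = ‖z.1‖ := fun z => rfl
  have hPc : Continuous P := by
    show Continuous fun z : ℂ × C(X, B) => ‖z.1‖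
    fun_prop
  refine ⟨P, piece_fixP ?_ hPc fun U hU => ?_⟩
  · rw [fX_mulP]
    refine Prod.ext rfl (ContinuousMap.ext fun x => ?_)
    show -((1 : ℂ) • (1 : B)) = -1
    rw [one_smul]
  · have h0 : U ∈ 𝓝 ((0 : ℂ), (0 : C(X, B))) := hU
    rw [nhds_prod_eq, Filter.mem_prod_iff] at h0
    obtain ⟨V1, hV1, V2, hV2, hV⟩ := h0
    obtain ⟨K, -, ε, hε, hKU⟩ := mem_nhds_CX hV2
    obtain ⟨r, hr, hrV⟩ := Metric.mem_nhds_iff.1 hV1
    have hc : 0 < ‖(1 : B)‖ + 1 := by positivity
    refine ⟨min r (ε / (‖(1 : B)‖ + 1)), lt_min hr (div_pos hε hc),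
      fun z hz hzP => hV ⟨hrV ?_, hKU _ fun x _ => ?_⟩⟩
    · rw [Metric.mem_ball, dist_zero_right]
      exact hzP.trans_le (min_le_left _ _)
    · have h1 : mulP fX z = z := hz
      rw [fX_mulP] at h1
      have h2 : z.2 = -(z.1 • (1 : C(X, B))) := (congrArg Prod.snd h1).symm
      rw [h2]
      show ‖-(z.1 • (1 : B))‖ < ε
      have h3 : ‖z.1‖ < ε / (‖(1 : B)‖ + 1) := hzP.trans_le (min_le_right _ _)
      rw [norm_neg, norm_smul]
      rw [lt_div_iff₀ hc] at h3
      have h4 := norm_nonneg z.1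
      linarith

/-- The complex valued function. -/
noncomputable def cG (B : Type v) [NormedRing B] [NormedAlgebra ℂ B] (g : C(X, ℝ)) : C(X, B) :=
  ⟨fun x => (g x : ℂ) • (1 : B),
    (Complex.continuous_ofReal.comp g.continuous).smul continuous_const⟩

theorem cG_apply (g : C(X, ℝ)) (x : X) : cG B g x = (g x : ℂ) • (1 : B) := rfl

/-- The differences. -/
noncomputable def dG (B : Type v) [NormedRing B] [NormedAlgebra ℂ B] (g : ℕ → C(X, ℝ)) :
    ℕ → C(X, B)
  | 0 => cG B (g 0)
  | n + 1 => cG B (g (n + 1)) - cG B (g n)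

theorem sum_dG (g : ℕ → C(X, ℝ)) (n : ℕ) :
    ∑ i ∈ Finset.range (n + 1), dG B g i = cG B (g n) := by
  induction n with
  | zero =>
    rw [zero_add, Finset.sum_range_one]
    rfl
  | succ n ih =>
    rw [Finset.sum_range_succ, ih]
    show cG B (g n) + (cG B (g (n + 1)) - cG B (g n)) = cG B (g (n + 1))
    abel

/-- Cut off functions along a compact exhaustion. -/
structure Cut (K : CompactExhaustion X) (g : ℕ → C(X, ℝ)) : Prop where
  one : ∀ n, ∀ x ∈ K n, g n x = 1
  zero : ∀ n, ∀ x, x ∉ K (n + 1) → g n x = 0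
  comp : ∀ n, HasCompactSupport (g n)
  nonneg : ∀ n x, 0 ≤ g n x

theorem exists_cut (K : CompactExhaustion X) : ∃ g : ℕ → C(X, ℝ), Cut K g := by
  have h : ∀ n, ∃ f : C(X, ℝ), Set.EqOn f 1 (K n) ∧ Set.EqOn f 0 (interior (K (n + 1)))ᶜ ∧
      HasCompactSupport f ∧ ∀ x, f x ∈ Set.Icc (0 : ℝ) 1 := by
    intro n
    exact exists_continuous_one_zero_of_isCompact (K.isCompact n) isOpen_interior.isClosed_compl
      (Set.disjoint_compl_right_iff_subset.2 (K.subset_interior_succ n))
  choose g h1 h2 h3 h4 using h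
  refine ⟨g, ⟨fun n x hx => h1 n hx, fun n x hx => h2 n ?_, h3, fun n x => (h4 n x).1⟩⟩
  exact fun hx' => hx (interior_subset hx')

theorem Cut.dG_mul {K : CompactExhaustion X} {g : ℕ → C(X, ℝ)} (hg : Cut K g) (n : ℕ) :
    dG B g n * cG B (g (n + 1)) = dG B g n := by
  refine ContinuousMap.ext fun x => ?_
  show dG B g n x * cG B (g (n + 1)) x = dG B g n x
  by_cases hx : x ∈ K (n + 1)
  · rw [cG_apply, hg.one _ x hx]
    simp
  · have h1 : dG B g n x = 0 := by
      cases n with
      | zero =>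
        show ((g 0 x : ℝ) : ℂ) • (1 : B) = 0
        rw [hg.zero 0 x hx, Complex.ofReal_zero, zero_smul]
      | succ n =>
        show ((g (n + 1) x : ℝ) : ℂ) • (1 : B) - ((g n x : ℝ) : ℂ) • (1 : B) = 0
        have h2 : x ∉ K (n + 1) := fun h3 => hx (K.subset_succ (n + 1) h3)
        rw [hg.zero (n + 1) x hx, hg.zero n x h2, sub_self]
    rw [h1, zero_mul]

/-- The small family. -/
noncomputable def psiX (B : Type v) [NormedRing B] [NormedAlgebra ℂ B] (g : ℕ → C(X, ℝ)) :
    ℕ → ℂ × C(X, B)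
  | 0 => fX
  | n + 1 => (0, dG B g n)

/-- The elements of the pieces. -/
noncomputable def phiX (B : Type v) [NormedRing B] [NormedAlgebra ℂ B] (g : ℕ → C(X, ℝ)) :
    ℕ → ℂ × C(X, B)
  | 0 => fX
  | n + 1 => (0, cG B (g (n + 1)))

/-- The pieces. -/
noncomputable def LX (B : Type v) [NormedRing B] [NormedAlgebra ℂ B] (g : ℕ → C(X, ℝ)) :
    ℕ → Submodule ℂ (ℂ × C(X, B))
  | 0 => fixP fX
  | n + 1 => Lg B (g (n + 1))

theorem Cut.part {K : CompactExhaustion X} {g : ℕ → C(X, ℝ)} (hg : Cut K g) :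
    Part (LX B g) (psiX B g) (phiX B g) where
  mem := by
    intro i
    cases i with
    | zero =>
      show mulP fX fX = fX
      rw [fX_mulP]
      refine Prod.ext rfl (ContinuousMap.ext fun x => ?_)
      show -((1 : ℂ) • (1 : B)) = -1
      rw [one_smul]
    | succ n =>
      refine ⟨rfl, fun x hx => ?_⟩
      show ((g (n + 1) x : ℝ) : ℂ) • (1 : B) = 0
      rw [hx, Complex.ofReal_zero, zero_smul]
  small := by
    intro U hU
    have h0 : U ∈ 𝓝 ((0 : ℂ), (0 : C(X, B))) := hU
    rw [nhds_prod_eq, Filter.mem_prod_iff] at h0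
    obtain ⟨V1, hV1, V2, hV2, hV⟩ := h0
    obtain ⟨S, hS, ε, hε, hKU⟩ := mem_nhds_CX hV2
    obtain ⟨m, hm⟩ := K.exists_superset_of_isCompact hS
    refine ⟨m + 2, fun i hi z => ?_⟩
    obtain ⟨l, rfl⟩ : ∃ l, i = l + 2 := ⟨i - 2, by omega⟩
    have h1 : mulP (psiX B g (l + 2)) z = (0, z.1 • dG B g (l + 1) + dG B g (l + 1) * z.2) := by
      refine Prod.ext (zero_mul z.1) (ContinuousMap.ext fun x => ?_)
      show (0 : ℂ) • z.2 x + z.1 • dG B g (l + 1) x + dG B g (l + 1) x * z.2 x =
        z.1 • dG B g (l + 1) x + dG B g (l + 1) x * z.2 x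
      rw [zero_smul, zero_add]
    rw [h1]
    refine hV ⟨mem_of_mem_nhds hV1, hKU _ fun x hx => ?_⟩
    have h2 : dG B g (l + 1) x = 0 := by
      show ((g (l + 1) x : ℝ) : ℂ) • (1 : B) - ((g l x : ℝ) : ℂ) • (1 : B) = 0
      have h3 : x ∈ K l := K.subset (by omega) (hm hx)
      rw [hg.one (l + 1) x (K.subset_succ l h3), hg.one l x h3, sub_self]
    show ‖z.1 • dG B g (l + 1) x + dG B g (l + 1) x * z.2 x‖ < ε
    rw [h2, smul_zero, zero_mul, add_zero, norm_zero]
    exact hε
  sum := by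
    rw [← tendsto_add_atTop_iff_nat 2]
    have h1 : ∀ n, ∑ i ∈ Finset.range (n + 2), mulP (psiX B g i) (phiX B g i) =
        (1, cG B (g n) - 1) := by
      intro n
      rw [Finset.sum_range_succ']
      have h2 : ∀ i, mulP (psiX B g (i + 1)) (phiX B g (i + 1)) = (0, dG B g i) := by
        intro i
        show mulP (0, dG B g i) (0, cG B (g (i + 1))) = (0, dG B g i)
        rw [mulP_zero_left _ rfl, hg.dG_mul]
      have h3 : mulP (psiX B g 0) (phiX B g 0) = (1, -1) := by
        show mulP fX fX = (1, -1)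
        rw [fX_mulP]
        refine Prod.ext rfl (ContinuousMap.ext fun x => ?_)
        show -((1 : ℂ) • (1 : B)) = -1
        rw [one_smul]
      simp_rw [h2]
      rw [h3]
      have h4 : ∑ i ∈ Finset.range (n + 1), ((0 : ℂ), dG B g i) = (0, cG B (g n)) := by
        rw [← sum_dG]
        refine Prod.ext ?_ ?_
        · rw [Prod.fst_sum]
          simp
        · rw [Prod.snd_sum]
      rw [h4]
      refine Prod.ext (zero_add 1) ?_
      show cG B (g n) + -1 = cG B (g n) - 1
      rw [sub_eq_add_neg]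
    simp_rw [h1]
    refine Tendsto.prodMk_nhds tendsto_const_nhds ?_
    intro U hU
    obtain ⟨S, hS, ε, hε, hKU⟩ := mem_nhds_CX hU
    obtain ⟨m, hm⟩ := K.exists_superset_of_isCompact hS
    rw [Filter.mem_map]
    filter_upwards [eventually_ge_atTop m] with n hn
    refine hKU _ fun x hx => ?_
    show ‖((g n x : ℝ) : ℂ) • (1 : B) - 1‖ < ε
    rw [hg.one n x (K.subset hn (hm hx)), Complex.ofReal_one, one_smul, sub_self, norm_zero]
    exact hε

/-- Modules over algebras of continuous functions. -/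
theorem hasInjectiveCoresolution_CX (M : FMod C(X, B)) : HasInjectiveCoresolution M := by
  obtain ⟨g, hg⟩ := exists_cut (CompactExhaustion.choice X)
  obtain ⟨P0, hP0⟩ := piece_fX (X := X) (B := B)
  refine hg.part.hasInjectiveCoresolution
    (P := fun i => match i with
      | 0 => P0
      | n + 1 => semP (supK (tsupport (g (n + 1))) (hg.comp (n + 1))))
    (u := fun i => match i with
      | 0 => fun k => if k = 0 then fX else 0
      | n + 1 => fun k => ((0 : ℂ), uG B (g (n + 1)) k)) (fun i => ?_) M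
  cases i with
  | zero => exact hP0
  | succ n => exact piece_Lg (hg.nonneg (n + 1)) (hg.comp (n + 1))

end Pool.Agent.Helper20.FA
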