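import Pool.Agent.Helper20.FC.G4

/-!
# The algebra of continuous functions on a space that is not compact is not normable
-/

open Topology Filter

namespace Pool.Agent.Helper20.FA

universe u v

attribute [local instance] isFrechet_CX

variable {X : Type u} [TopologicalSpace X] [T2Space X] [LocallyCompactSpace X]
  [SigmaCompactSpace X] {B : Type v} [NormedRing B] [NormedAlgebra ℂ B] [CompleteSpace B]

theorem compactSpace_of_normable [Nontrivial B] (h : Normable C(X, B)) : CompactSpace X := by
  obtain ⟨p, hp⟩ := h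
  have hpc : Continuous p := hp.continuous_seminorm ()
  have hU : {f : C(X, B) | p f < 1} ∈ 𝓝 (0 : C(X, B)) := by
    refine (isOpen_lt hpc continuous_const).mem_nhds ?_
    show p 0 < 1
    rw [map_zero]
    exact one_pos
  obtain ⟨K, hK, ε, hε, hKU⟩ := mem_nhds_CX hU
  have hK' : K = Set.univ := by
    by_contra h0
    obtain ⟨x0, hx0⟩ := (Set.ne_univ_iff_exists_notMem K).1 h0
    obtain ⟨f, h1, h2, -, -⟩ := exists_continuous_one_zero_of_isCompact
      (isCompact_singleton (x := x0)) hK.isClosed (Set.disjoint_singleton_left.2 hx0)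
    have hF : cG B f x0 = 1 := by
      have h3 : f x0 = 1 := h1 rfl
      rw [cG_apply, h3, Complex.ofReal_one, one_smul]
    have hF0 : cG B f ≠ 0 := by
      intro h3
      rw [h3] at hF
      exact zero_ne_one hF
    obtain ⟨_, h4⟩ := hp.separating_of_T1 _ hF0
    have h5 : 0 < p (cG B f) := lt_of_le_of_ne (apply_nonneg p _) (Ne.symm h4)
    have h6 : p ((((p (cG B f))⁻¹ : ℝ) : ℂ) • cG B f) < 1 := by
      refine hKU _ fun x hx => ?_
      have h7 : f x = 0 := h2 hx
      rw [ContinuousMap.smul_apply, cG_apply, h7, Complex.ofReal_zero, zero_smul, smul_zero,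
        norm_zero]
      exact hε
    rw [map_smul_eq_mul, Complex.norm_real, Real.norm_of_nonneg (by positivity),
      inv_mul_cancel₀ h5.ne'] at h6
    exact lt_irrefl _ h6
  exact ⟨hK' ▸ hK⟩

theorem normable_of_compactSpace [CompactSpace X] : Normable C(X, B) := by
  refine normable_of_bound (p := normSeminorm ℂ C(X, B)) continuous_norm fun O hO => ?_
  obtain ⟨r, hr, hrO⟩ := Metric.mem_nhds_iff.1 hO
  refine ⟨r, hr, fun x hx => hrO ?_⟩
  rw [Metric.mem_ball, dist_zero_right]
  exact hx

end Pool.Agent.Helper20.FA
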